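import Mathlib

set_option autoImplicit false

/-!
Arithmetic of the levels: one extra site (a leaf) is attached at the levels `m` such that `m + 1`
is a perfect square.
-/

namespace Pool.H543.Sand

open Finset

/-- leaf levels -/
def sq (m : ℕ) : Prop := Nat.sqrt m < Nat.sqrt (m + 1)

instance : DecidablePred sq := fun m => inferInstanceAs (Decidable (Nat.sqrt m < Nat.sqrt (m + 1)))

/-- number of sites at a tree vertex of level `m` -/
def kap (m : ℕ) : ℕ := 1 + if sq m then 1 else 0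

/-- cumulative number -/
def KK (M : ℕ) : ℕ := M + Nat.sqrt M

lemma sqrt_succ_le (m : ℕ) : Nat.sqrt (m + 1) ≤ Nat.sqrt m + 1 := by
  have h : m + 1 < (Nat.sqrt m + 2) * (Nat.sqrt m + 2) := by
    have h1 := Nat.lt_succ_sqrt m
    have h2 : m < (Nat.sqrt m + 1) * (Nat.sqrt m + 1) := h1
    nlinarith
  have := Nat.sqrt_lt.2 h
  omega

lemma kap_le (m : ℕ) : kap m ≤ 2 := by
  unfold kap; split_ifs <;> omega

lemma one_le_kap (m : ℕ) : 1 ≤ kap m := by
  unfold kap; omega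

lemma KK_succ (M : ℕ) : KK (M + 1) = KK M + kap M := by
  have h1 := sqrt_succ_le M
  have h2 : Nat.sqrt M ≤ Nat.sqrt (M + 1) := Nat.sqrt_le_sqrt (by omega)
  unfold KK kap sq
  split_ifs <;> omega

lemma sum_kap (M : ℕ) : ∑ m ∈ range M, kap m = KK M := by
  induction M with
  | zero => simp [KK]
  | succ M ih => rw [sum_range_succ, ih, KK_succ]

lemma KK_mono {a b : ℕ} (h : a ≤ b) : KK a ≤ KK b := by
  unfold KK
  have := Nat.sqrt_le_sqrt h
  omega

lemma sum_kap_Ico {a b : ℕ} (h : a ≤ b) : (∑ m ∈ Ico a b, (kap m : ℝ)) = (KK b : ℝ) - KK a := by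
  have h1 := sum_kap a
  have h2 := sum_kap b
  rw [← Finset.sum_range_add_sum_Ico _ h, h1] at h2
  have h3 : ((KK a + ∑ m ∈ Ico a b, kap m : ℕ) : ℝ) = KK b := by rw [h2]
  push_cast at h3
  linarith

lemma sqrt_sub_ge (a c : ℕ) : a ≤ Nat.sqrt (a * a - c) + c := by
  by_cases h : a ≤ c
  · omega
  · push Not at h
    have : a - c ≤ Nat.sqrt (a * a - c) := by
      rw [Nat.le_sqrt]
      obtain ⟨b, rfl⟩ : ∃ b, a = c + b := ⟨a - c, by omega⟩
      have hb : 1 ≤ b := by omega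
      have e : c + b - c = b := by omega
      rw [e]
      have : b * b + c ≤ (c + b) * (c + b) := by nlinarith
      omega
    omega

lemma sqrt_add_le (r a t : ℕ) : Nat.sqrt (r + a * a + t) ≤ Nat.sqrt r + 1 + a + t := by
  have h1 : r < (Nat.sqrt r + 1) * (Nat.sqrt r + 1) := Nat.lt_succ_sqrt r
  have : r + a * a + t < (Nat.sqrt r + 1 + a + t + 1) * (Nat.sqrt r + 1 + a + t + 1) := by
    nlinarith
  have := Nat.sqrt_lt.2 this
  omega

lemma sqrt_add_le' (r a t : ℕ) (h : a * a ≤ r) :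
    2 * Nat.sqrt (r + a * a + t) ≤ 2 * Nat.sqrt r + 3 + a + 2 * t := by
  have h1 : r < (Nat.sqrt r + 1) * (Nat.sqrt r + 1) := Nat.lt_succ_sqrt r
  have ha : a ≤ Nat.sqrt r := by rw [Nat.le_sqrt]; exact h
  set s := Nat.sqrt r with hs
  obtain ⟨b, hb1, hb2⟩ : ∃ b, a ≤ 2 * b ∧ 2 * b ≤ a + 1 := ⟨(a + 1) / 2, by omega, by omega⟩
  have : r + a * a + t < (s + 1 + b + t + 1) * (s + 1 + b + t + 1) := by
    have h2 : a * a ≤ 2 * b * (s + 1) := by nlinarith
    nlinarith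
  have := Nat.sqrt_lt.2 this
  omega

lemma bracket (n r t a c : ℕ) :
    KK (min (n + 1) (r + a * a + t)) ≤ KK (min (n + 1) (a * a - c)) + KK r + (2 * c + 2 * t + 1) := by
  rcases Nat.lt_or_ge (a * a - c) (n + 1) with h | h
  · rw [min_eq_right h.le]
    have h1 : KK (min (n + 1) (r + a * a + t)) ≤ KK (r + a * a + t) := KK_mono (min_le_right _ _)
    have h2 := sqrt_sub_ge a c
    have h3 := sqrt_add_le r a t
    unfold KK at *
    omega
  · rw [min_eq_left h]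
    have h1 : KK (min (n + 1) (r + a * a + t)) ≤ KK (n + 1) := KK_mono (min_le_left _ _)
    omega

lemma bracket' (n r t a c : ℕ) (ha : a * a ≤ r) (hr : r ≤ n) :
    2 * KK (min (n + 1) (r + a * a + t)) + a ≤
      2 * KK (min (n + 1) (a * a - c)) + 2 * KK r + (4 * c + 4 * t + 3) := by
  rw [min_eq_right (show a * a - c ≤ n + 1 by omega)]
  have h1 : KK (min (n + 1) (r + a * a + t)) ≤ KK (r + a * a + t) := KK_mono (min_le_right _ _)
  have h2 := sqrt_sub_ge a c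
  have h3 := sqrt_add_le' r a t ha
  unfold KK at *
  omega

lemma geom_half (N : ℕ) : ∑ j ∈ range N, (1 / 2 : ℝ) ^ (j + 1) ≤ 1 := by
  have : ∀ N : ℕ, ∑ j ∈ range N, (1 / 2 : ℝ) ^ (j + 1) = 1 - (1 / 2) ^ N := by
    intro N
    induction N with
    | zero => simp
    | succ N ih => rw [sum_range_succ, ih]; ring
  rw [this]
  have : (0 : ℝ) ≤ (1 / 2) ^ N := by positivity
  linarith

lemma geom_two (r : ℕ) : ∑ m ∈ range r, (2 : ℝ) ^ m / 2 ^ r ≤ 1 := by
  rw [← Finset.sum_div, div_le_one (by positivity)]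
  have : ∀ r : ℕ, ∑ m ∈ range r, (2 : ℝ) ^ m = 2 ^ r - 1 := by
    intro r
    induction r with
    | zero => simp
    | succ r ih => rw [sum_range_succ, ih]; ring
  rw [this]; linarith

lemma sum_beta (n r D : ℕ) (hr : r ≤ n + 1) (β : ℕ → ℝ) (h1 : ∀ m, r ≤ m → β m ≤ 1)
    (h2 : ∀ j, β (r + D + j) ≤ (1 / 2) ^ (j + 1)) :
    ∑ m ∈ Ico r (n + 1), (kap m : ℝ) * β m ≤ (KK (min (n + 1) (r + D)) : ℝ) - KK r + 2 := by
  have hk : ∀ m, (0 : ℝ) ≤ kap m := fun m => Nat.cast_nonneg _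
  have hA : ∀ b, r ≤ b → ∑ m ∈ Ico r b, (kap m : ℝ) * β m ≤ (KK b : ℝ) - KK r := by
    intro b hb
    rw [← sum_kap_Ico hb]
    refine sum_le_sum fun m hm => ?_
    have := h1 m (mem_Ico.1 hm).1
    nlinarith [hk m]
  rcases le_total (n + 1) (r + D) with h | h
  · rw [min_eq_left h]
    have := hA (n + 1) hr
    linarith
  · rw [min_eq_right h, ← Finset.sum_Ico_consecutive _ (show r ≤ r + D by omega) h]
    have h3 := hA (r + D) (by omega)
    have h4 : ∑ m ∈ Ico (r + D) (n + 1), (kap m : ℝ) * β m ≤ 2 := by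
      rw [Finset.sum_Ico_eq_sum_range]
      have h5 : ∑ k ∈ range (n + 1 - (r + D)), (kap (r + D + k) : ℝ) * β (r + D + k) ≤
          ∑ k ∈ range (n + 1 - (r + D)), 2 * (1 / 2 : ℝ) ^ (k + 1) := by
        refine sum_le_sum fun k _ => ?_
        have h6 : (kap (r + D + k) : ℝ) ≤ 2 := by exact_mod_cast kap_le _
        have h7 := h2 k
        have h8 : (0 : ℝ) < (1 / 2) ^ (k + 1) := by positivity
        nlinarith [hk (r + D + k)]
      rw [← Finset.mul_sum] at h5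
      have := geom_half (n + 1 - (r + D))
      linarith
    linarith

/-- number of sites (per tree vertex) at levels `m ≤ n` for which mass `2 ^ (16 ^ k)` is exceptional -/
noncomputable def aK (n k : ℕ) : ℝ :=
  ∑ m ∈ range (n + 1), (kap m : ℝ) * (if m + 4 < 16 ^ k then 1 else 0)

lemma aK_eq (n k : ℕ) : aK n k = KK (min (n + 1) (4 ^ k * 4 ^ k - 4)) := by
  have h16 : (16 : ℕ) ^ k = 4 ^ k * 4 ^ k := by rw [← mul_pow]; norm_num
  rw [← sum_kap]
  push_cast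
  unfold aK
  have : ∑ m ∈ range (n + 1), (kap m : ℝ) * (if m + 4 < 16 ^ k then 1 else 0) =
      ∑ m ∈ (range (n + 1)).filter (fun m => m + 4 < 16 ^ k), (kap m : ℝ) := by
    rw [Finset.sum_filter]
    refine sum_congr rfl fun m _ => ?_
    split_ifs <;> simp
  rw [this]
  congr 1
  ext m
  simp only [mem_filter, mem_range, lt_min_iff, h16]
  omega

theorem level_sum (n r t k : ℕ) (hr : r ≤ n) (b : ℕ → ℝ) (h0 : ∀ m < r, b m ≤ 2 ^ m / 2 ^ r)
    (h1 : ∀ m, r ≤ m → b m ≤ 1) (h2 : ∀ j, b (r + (16 ^ k + t) + j) ≤ (1 / 2) ^ (j + 1)) :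
    ∑ m ∈ range (n + 1), (kap m : ℝ) * b m ≤ aK n k + (14 + 2 * t) ∧
    (16 ^ k ≤ r → ∑ m ∈ range (n + 1), (kap m : ℝ) * b m ≤ aK n k + (14 + 2 * t) - 4 ^ k / 2) := by
  have h16 : (16 : ℕ) ^ k = 4 ^ k * 4 ^ k := by rw [← mul_pow]; norm_num
  have hsplit : ∑ m ∈ range (n + 1), (kap m : ℝ) * b m =
      ∑ m ∈ range r, (kap m : ℝ) * b m + ∑ m ∈ Ico r (n + 1), (kap m : ℝ) * b m :=
    (Finset.sum_range_add_sum_Ico _ (by omega)).symm
  have hA : ∑ m ∈ range r, (kap m : ℝ) * b m ≤ 2 := by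
    have : ∑ m ∈ range r, (kap m : ℝ) * b m ≤ ∑ m ∈ range r, 2 * ((2 : ℝ) ^ m / 2 ^ r) := by
      refine sum_le_sum fun m hm => ?_
      have h6 : (kap m : ℝ) ≤ 2 := by exact_mod_cast kap_le _
      have h7 := h0 m (mem_range.1 hm)
      have h8 : (0 : ℝ) ≤ 2 ^ m / 2 ^ r := by positivity
      have h9 : (0 : ℝ) ≤ kap m := Nat.cast_nonneg _
      nlinarith
    rw [← Finset.mul_sum] at this
    have := geom_two r
    linarith
  have hB := sum_beta n r (16 ^ k + t) (by omega) b h1 h2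
  rw [aK_eq, hsplit]
  have e : r + (16 ^ k + t) = r + 4 ^ k * 4 ^ k + t := by rw [h16]; omega
  rw [e] at hB
  constructor
  · have h3 := bracket n r t (4 ^ k) 4
    have h3' : (KK (min (n + 1) (r + 4 ^ k * 4 ^ k + t)) : ℝ) ≤
        KK (min (n + 1) (4 ^ k * 4 ^ k - 4)) + KK r + (2 * 4 + 2 * t + 1) := by exact_mod_cast h3
    linarith
  · intro hk
    have h3 := bracket' n r t (4 ^ k) 4 (by rw [← h16]; exact hk) hr
    have h3' : 2 * (KK (min (n + 1) (r + 4 ^ k * 4 ^ k + t)) : ℝ) + 4 ^ k ≤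
        2 * KK (min (n + 1) (4 ^ k * 4 ^ k - 4)) + 2 * KK r + (4 * 4 + 4 * t + 3) := by
      exact_mod_cast h3
    linarith

lemma lin_le_exp (k : ℕ) : 32 * k ≤ 2 ^ k + 160 := by
  induction k with
  | zero => norm_num
  | succ k ih =>
    rcases Nat.lt_or_ge k 5 with h | h
    · interval_cases k <;> norm_num
    · have : 2 ^ 5 ≤ 2 ^ k := Nat.pow_le_pow_right (by norm_num) h
      rw [pow_succ]; omega

/-- the exponent `t` used at level `r` -/
def tt (r : ℕ) : ℕ := Nat.log 2 r + 1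

lemma lt_two_pow_tt (r : ℕ) : r + 1 ≤ 2 ^ tt r := Nat.lt_pow_succ_log_self (by norm_num) r

lemma tt_le (r : ℕ) : tt r ≤ 4 * Nat.log 16 r + 4 := by
  unfold tt
  have h1 : r < 16 ^ (Nat.log 16 r + 1) := Nat.lt_pow_succ_log_self (by norm_num) r
  by_cases hr : r = 0
  · subst hr; simp
  have h2 : 2 ^ Nat.log 2 r ≤ r := Nat.pow_log_le_self 2 hr
  have h3 : 2 ^ Nat.log 2 r < 2 ^ (4 * (Nat.log 16 r + 1)) := by
    rw [pow_mul]; norm_num; omega
  have := (Nat.pow_lt_pow_iff_right (by norm_num : 1 < 2)).1 h3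
  omega

/-- the margin -/
lemma margin (r : ℕ) (hr : r ≠ 0) :
    (1 : ℝ) - 100 + (14 + 2 * tt r) - 2 ^ Nat.log 16 r / 4 ≤ -3 := by
  have h1 := tt_le r
  have h2 := lin_le_exp (Nat.log 16 r)
  have h1' : (tt r : ℝ) ≤ 4 * Nat.log 16 r + 4 := by exact_mod_cast h1
  have h2' : 32 * (Nat.log 16 r : ℝ) ≤ 2 ^ Nat.log 16 r + 160 := by exact_mod_cast h2
  linarith

end Pool.H543.Sand
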