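import Mathlib
import Pool.Agent.H543Sand.Arith

set_option autoImplicit false

/-!
The law of the masses: with probability `2 ^ (-(k+1))` the index `k` is chosen, and then the mass is
`X k = 2 ^ (16 ^ k)` with probability `1 / X k` and `0` otherwise.
-/

namespace Pool.H543.Sand

open MeasureTheory Finset

/-- weights -/
noncomputable def Wt (k : ℕ) : ℝ := (1 / 2) ^ (k + 1)

/-- values -/
noncomputable def X (k : ℕ) : ℝ := 2 ^ (16 ^ k)

lemma Wt_pos (k : ℕ) : 0 < Wt k := by unfold Wt; positivity

lemma X_pos (k : ℕ) : 0 < X k := by unfold X; positivity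

lemma one_le_X (k : ℕ) : 1 ≤ X k := one_le_pow₀ (by norm_num)

lemma hasSum_Wt : HasSum Wt 1 := by
  have h := (hasSum_geometric_two' (1 / 2 : ℝ))
  have e : (fun n : ℕ => (1 / 2 : ℝ) / 2 / 2 ^ n) = fun n => (1 / 2) ^ (n + 1) / 2 := by
    funext n
    rw [pow_succ, one_div_pow]
    ring
  have h2 : HasSum (fun n : ℕ => 2 * ((1 / 2 : ℝ) / 2 / 2 ^ n)) (2 * (1 / 2)) := h.mul_left 2
  have e2 : (fun n : ℕ => 2 * ((1 / 2 : ℝ) / 2 / 2 ^ n)) = Wt := by
    funext n
    unfold Wt
    rw [pow_succ, one_div_pow]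
    ring
  rw [e2] at h2
  simpa using h2

lemma summable_Wt : Summable Wt := hasSum_Wt.summable

lemma tsum_Wt : ∑' k, Wt k = 1 := hasSum_Wt.tsum_eq

lemma summable_Wt_mul {f : ℕ → ℝ} {C : ℝ} (hf : ∀ k, |f k| ≤ C) : Summable (fun k => Wt k * f k) := by
  refine Summable.of_norm_bounded (g := fun k => Wt k * C) (summable_Wt.mul_right C) fun k => ?_
  rw [Real.norm_eq_abs, abs_mul, abs_of_pos (Wt_pos k)]
  exact mul_le_mul_of_nonneg_left (hf k) (Wt_pos k).le

/-- the law of the masses -/
noncomputable def law : Measure ℝ :=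
  Measure.sum fun k => ENNReal.ofReal (Wt k) • (ENNReal.ofReal (1 / X k) • Measure.dirac (X k) +
    ENNReal.ofReal (1 - 1 / X k) • Measure.dirac 0)

lemma lintegral_law (f : ℝ → ENNReal) (hf : Measurable f) : ∫⁻ s, f s ∂law =
    ∑' k, ENNReal.ofReal (Wt k) * (ENNReal.ofReal (1 / X k) * f (X k) +
      ENNReal.ofReal (1 - 1 / X k) * f 0) := by
  unfold law
  rw [lintegral_sum_measure]
  refine tsum_congr fun k => ?_
  rw [lintegral_smul_measure, lintegral_add_measure, lintegral_smul_measure,
    lintegral_smul_measure, lintegral_dirac' _ hf, lintegral_dirac' _ hf]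
  rfl

lemma tsum_ofReal_Wt_mul {f : ℕ → ℝ} (h0 : ∀ k, 0 ≤ f k) {C : ℝ} (hf : ∀ k, |f k| ≤ C) :
    ∑' k, ENNReal.ofReal (Wt k) * ENNReal.ofReal (f k) = ENNReal.ofReal (∑' k, Wt k * f k) := by
  rw [ENNReal.ofReal_tsum_of_nonneg (fun k => mul_nonneg (Wt_pos k).le (h0 k)) (summable_Wt_mul hf)]
  refine tsum_congr fun k => ?_
  rw [ENNReal.ofReal_mul (Wt_pos k).le]

lemma inv_X_le (k : ℕ) : 1 / X k ≤ 1 := by
  rw [div_le_one (X_pos k)]; exact one_le_X k

instance : IsProbabilityMeasure law := by
  constructor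
  have h := lintegral_law (fun _ => 1) measurable_const
  rw [lintegral_one] at h
  rw [h]
  have : ∀ k, ENNReal.ofReal (Wt k) * (ENNReal.ofReal (1 / X k) * 1 +
      ENNReal.ofReal (1 - 1 / X k) * 1) = ENNReal.ofReal (Wt k) * ENNReal.ofReal 1 := by
    intro k
    rw [mul_one, mul_one, ← ENNReal.ofReal_add (by have := X_pos k; positivity)
      (by have := inv_X_le k; linarith)]
    congr 2; ring
  simp_rw [this]
  rw [tsum_ofReal_Wt_mul (fun _ => zero_le_one) (C := 1) (fun _ => by simp)]
  simp [tsum_Wt]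

/-- real-valued version for nonnegative functions with controlled values -/
lemma lintegral_law_real (g : ℝ → ℝ) (hg : Measurable g) (h0 : ∀ s, 0 ≤ g s) {C : ℝ}
    (hC : ∀ k, 1 / X k * g (X k) + (1 - 1 / X k) * g 0 ≤ C) :
    ∫⁻ s, ENNReal.ofReal (g s) ∂law =
      ENNReal.ofReal (∑' k, Wt k * (1 / X k * g (X k) + (1 - 1 / X k) * g 0)) := by
  rw [lintegral_law (fun s => ENNReal.ofReal (g s)) (ENNReal.measurable_ofReal.comp hg)]
  have hn : ∀ k, 0 ≤ 1 / X k * g (X k) + (1 - 1 / X k) * g 0 := by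
    intro k
    have h1 := X_pos k
    have h2 := inv_X_le k
    have h3 := h0 (X k)
    have h4 := h0 0
    have h5 : 0 ≤ 1 - 1 / X k := by linarith
    positivity
  rw [← tsum_ofReal_Wt_mul hn (C := C) (fun k => by rw [abs_of_nonneg (hn k)]; exact hC k)]
  refine tsum_congr fun k => ?_
  have h1 := X_pos k
  have h2 := inv_X_le k
  rw [ENNReal.ofReal_add (by have := h0 (X k); positivity)
    (mul_nonneg (by linarith) (h0 0)), ENNReal.ofReal_mul (by positivity),
    ENNReal.ofReal_mul (by linarith)]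

lemma law_nonneg : law {s | s < 0} = 0 := by
  have hms : MeasurableSet {s : ℝ | s < 0} := measurableSet_lt measurable_id measurable_const
  have h := lintegral_law (({s : ℝ | s < 0}).indicator 1) (measurable_one.indicator hms)
  rw [lintegral_indicator_one hms] at h
  rw [h]
  refine ENNReal.tsum_eq_zero.2 fun k => ?_
  have h1 := X_pos k
  simp [Set.indicator, not_lt.2 h1.le]

lemma integrable_id_law : Integrable (fun t : ℝ => t) law ∧ ∫ t, t ∂law = 1 := by
  have h1 : ∫⁻ s, ENNReal.ofReal (max s 0) ∂law = 1 := by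
    rw [lintegral_law_real (fun s => max s 0) (measurable_id.max measurable_const)
      (fun s => le_max_right _ _) (C := 1)]
    · have : ∀ k, Wt k * (1 / X k * max (X k) 0 + (1 - 1 / X k) * max 0 0) = Wt k := by
        intro k
        have := X_pos k
        rw [max_eq_left this.le, max_self]
        field_simp
        ring
      simp_rw [this]
      simp [tsum_Wt]
    · intro k
      have := X_pos k
      rw [max_eq_left this.le, max_self]
      have : 1 / X k * X k = 1 := by field_simp
      rw [this]; simp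
  have hae : ∀ᵐ s ∂law, 0 ≤ s := by
    rw [ae_iff]
    simpa using law_nonneg
  have h2 : ∫⁻ s, ENNReal.ofReal s ∂law = 1 := by
    rw [← h1]
    refine lintegral_congr_ae ?_
    filter_upwards [hae] with s hs
    rw [max_eq_left hs]
  have hint : Integrable (fun t : ℝ => t) law := by
    refine ⟨measurable_id.aestronglyMeasurable, ?_⟩
    rw [hasFiniteIntegral_iff_ofReal hae, h2]
    exact ENNReal.one_lt_top
  refine ⟨hint, ?_⟩
  rw [integral_eq_lintegral_of_nonneg_ae hae measurable_id.aestronglyMeasurable, h2]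
  simp

lemma not_integrable_sq_law : ¬ Integrable (fun t : ℝ => t ^ 2) law := by
  intro h
  have h1 : ∫⁻ s, ENNReal.ofReal (s ^ 2) ∂law < ⊤ := by
    have := h.2
    rwa [hasFiniteIntegral_iff_ofReal (Filter.Eventually.of_forall fun s => sq_nonneg s)] at this
  have h2 : ∀ k : ℕ, ENNReal.ofReal (Wt k * X k) ≤ ∫⁻ s, ENNReal.ofReal (s ^ 2) ∂law := by
    intro k
    rw [lintegral_law (fun s => ENNReal.ofReal (s ^ 2))
      (ENNReal.measurable_ofReal.comp (measurable_id.pow_const 2))]
    refine le_trans ?_ (ENNReal.le_tsum k)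
    have hX := X_pos k
    rw [ENNReal.ofReal_mul (Wt_pos k).le]
    refine mul_le_mul_right ?_ _
    refine le_trans ?_ (le_self_add)
    rw [← ENNReal.ofReal_mul (by positivity)]
    refine ENNReal.ofReal_le_ofReal ?_
    have : 1 / X k * X k ^ 2 = X k := by field_simp
    rw [this]
  have h3 : ∀ k : ℕ, (k : ℝ) ≤ Wt k * X k := by
    intro k
    unfold Wt X
    have e1 : 2 * k + 1 ≤ 16 ^ k := by
      induction k with
      | zero => norm_num
      | succ k ih => rw [pow_succ]; omega
    have e2 : (2 : ℝ) ^ (2 * k + 1) ≤ 2 ^ (16 ^ k) := pow_le_pow_right₀ (by norm_num) e1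
    have e3 : (k : ℝ) ≤ 2 ^ k := by exact_mod_cast Nat.lt_two_pow_self.le
    have e4 : (1 / 2 : ℝ) ^ (k + 1) * 2 ^ (2 * k + 1) = 2 ^ k := by
      rw [show 2 * k + 1 = k + (k + 1) by omega, pow_add 2 k (k + 1), one_div_pow]
      field_simp
    calc (k : ℝ) ≤ 2 ^ k := e3
      _ = (1 / 2 : ℝ) ^ (k + 1) * 2 ^ (2 * k + 1) := e4.symm
      _ ≤ _ := mul_le_mul_of_nonneg_left e2 (by positivity)
  obtain ⟨k, hk⟩ := exists_nat_gt (∫⁻ s, ENNReal.ofReal (s ^ 2) ∂law).toReal
  have h4 := h2 k
  have h5 : ENNReal.ofReal k ≤ ∫⁻ s, ENNReal.ofReal (s ^ 2) ∂law :=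
    (ENNReal.ofReal_le_ofReal (h3 k)).trans h4
  rw [ENNReal.ofReal_natCast] at h5
  have h6 := ENNReal.toReal_mono h1.ne h5
  simp at h6
  linarith

/-- truncation of a mass at a site of level `m` -/
noncomputable def trn (m : ℕ) (s : ℝ) : ℝ := if s ≤ 2 ^ (m + 4) then s else 0

lemma measurable_trn (m : ℕ) : Measurable (trn m) :=
  Measurable.ite (measurableSet_le measurable_id measurable_const) measurable_id measurable_const

lemma trn_zero (m : ℕ) : trn m 0 = 0 := by unfold trn; split_ifs <;> rfl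

lemma X_le_iff (k m : ℕ) : X k ≤ 2 ^ (m + 4) ↔ ¬ (m + 4 < 16 ^ k) := by
  unfold X
  rw [pow_le_pow_iff_right₀ (by norm_num), not_lt]

/-- the correction coefficient -/
noncomputable def hh (lam : ℝ) (m k : ℕ) : ℝ :=
  if m + 4 < 16 ^ k then 1 else min 1 (lam * X k / 2)

lemma hh_nonneg {lam : ℝ} (h : 0 ≤ lam) (m k : ℕ) : 0 ≤ hh lam m k := by
  unfold hh
  have := X_pos k
  split_ifs
  · norm_num
  · exact le_min zero_le_one (by positivity)

lemma hh_le_one (lam : ℝ) (m k : ℕ) : hh lam m k ≤ 1 := by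
  unfold hh
  split_ifs
  · exact le_rfl
  · exact min_le_left _ _

lemma abs_hh_le {lam : ℝ} (h : 0 ≤ lam) (m k : ℕ) : |hh lam m k| ≤ 1 := by
  rw [abs_of_nonneg (hh_nonneg h m k)]; exact hh_le_one _ _ _

lemma one_sub_exp_ge {z : ℝ} (hz : 0 ≤ z) : z * (1 - min 1 (z / 2)) ≤ 1 - Real.exp (-z) := by
  rcases le_total (z / 2) 1 with h | h
  · rw [min_eq_right h]
    have h1 : Real.exp (-z) ≤ 1 - z + z ^ 2 / 2 := by
      -- use the quadratic lower bound for exp z
      have h2 := Real.quadratic_le_exp_of_nonneg hz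
      have h3 : Real.exp (-z) = 1 / Real.exp z := by rw [Real.exp_neg]; simp
      have h4 : (0 : ℝ) < 1 - z + z ^ 2 / 2 := by nlinarith [sq_nonneg (z - 1)]
      rw [h3, div_le_iff₀ (Real.exp_pos z)]
      have h5 : (1 - z + z ^ 2 / 2) * (1 + z + z ^ 2 / 2) ≤ (1 - z + z ^ 2 / 2) * Real.exp z :=
        mul_le_mul_of_nonneg_left h2 h4.le
      have h6 : (1 - z + z ^ 2 / 2) * (1 + z + z ^ 2 / 2) = 1 + z ^ 4 / 4 := by ring
      have h7 : 0 ≤ z ^ 4 := by positivity
      linarith
    linarith [show z * (1 - z / 2) = z - z ^ 2 / 2 by ring]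
  · rw [min_eq_left h]
    have : Real.exp (-z) ≤ 1 := Real.exp_le_one_iff.2 (by linarith)
    linarith

theorem laplace (lam : ℝ) (hl : 0 ≤ lam) (m : ℕ) :
    ∫⁻ s, ENNReal.ofReal (Real.exp (-(lam * (trn m s - 1)))) ∂law ≤
      ENNReal.ofReal (Real.exp (lam * ∑' k, Wt k * hh lam m k)) := by
  have hb : ∀ k, 1 / X k * Real.exp (-(lam * (trn m (X k) - 1))) +
      (1 - 1 / X k) * Real.exp (-(lam * (trn m 0 - 1))) ≤
      Real.exp lam * (1 - lam * (1 - hh lam m k)) := by
    intro k
    have hX := X_pos k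
    have hX1 := inv_X_le k
    rw [trn_zero]
    have e0 : Real.exp (-(lam * (0 - 1))) = Real.exp lam := by congr 1; ring
    rw [e0]
    unfold hh trn
    by_cases hk : m + 4 < 16 ^ k
    · rw [if_pos hk, if_neg (fun h => ((X_le_iff k m).1 h) hk), e0]
      have : 1 / X k * Real.exp lam + (1 - 1 / X k) * Real.exp lam = Real.exp lam := by ring
      rw [this]; simp
    · rw [if_neg hk, if_pos ((X_le_iff k m).2 hk)]
      have e1 : Real.exp (-(lam * (X k - 1))) = Real.exp lam * Real.exp (-(lam * X k)) := by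
        rw [← Real.exp_add]; congr 1; ring
      rw [e1]
      have h2 := one_sub_exp_ge (show 0 ≤ lam * X k by positivity)
      have h3 : 1 / X k * (lam * X k * (1 - min 1 (lam * X k / 2))) ≤
          1 / X k * (1 - Real.exp (-(lam * X k))) :=
        mul_le_mul_of_nonneg_left h2 (by positivity)
      have h4 : 1 / X k * (lam * X k * (1 - min 1 (lam * X k / 2))) =
          lam * (1 - min 1 (lam * X k / 2)) := by field_simp
      have h5 : 1 / X k * (Real.exp lam * Real.exp (-(lam * X k))) + (1 - 1 / X k) * Real.exp lam =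
          Real.exp lam * (1 - 1 / X k * (1 - Real.exp (-(lam * X k)))) := by ring
      rw [h5]
      refine mul_le_mul_of_nonneg_left ?_ (Real.exp_pos _).le
      linarith
  rw [lintegral_law_real (fun s => Real.exp (-(lam * (trn m s - 1)))) (by
      have := measurable_trn m
      fun_prop) (fun s => (Real.exp_pos _).le) (C := Real.exp lam)]
  · refine ENNReal.ofReal_le_ofReal ?_
    have hs2 : Summable fun k => Wt k * (Real.exp lam * (1 - lam * (1 - hh lam m k))) := by
      refine summable_Wt_mul (C := Real.exp lam * (1 + lam)) fun k => ?_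
      have h1 := hh_nonneg hl m k
      have h2 := hh_le_one lam m k
      rw [abs_mul, abs_of_pos (Real.exp_pos _)]
      refine mul_le_mul_of_nonneg_left ?_ (Real.exp_pos _).le
      rw [abs_le]
      constructor <;> nlinarith
    have hs1 : Summable fun k => Wt k * (1 / X k * Real.exp (-(lam * (trn m (X k) - 1))) +
        (1 - 1 / X k) * Real.exp (-(lam * (trn m 0 - 1)))) := by
      refine Summable.of_nonneg_of_le (fun k => ?_) (fun k =>
        mul_le_mul_of_nonneg_left (hb k) (Wt_pos k).le) hs2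
      have hX := X_pos k
      have hX1 : 0 ≤ 1 - 1 / X k := by have := inv_X_le k; linarith
      have := Wt_pos k
      positivity
    have h1 : ∑' k, Wt k * (1 / X k * Real.exp (-(lam * (trn m (X k) - 1))) +
        (1 - 1 / X k) * Real.exp (-(lam * (trn m 0 - 1)))) ≤
        ∑' k, Wt k * (Real.exp lam * (1 - lam * (1 - hh lam m k))) :=
      hs1.tsum_le_tsum (fun k => mul_le_mul_of_nonneg_left (hb k) (Wt_pos k).le) hs2
    have hsh : Summable fun k => Wt k * hh lam m k := summable_Wt_mul (abs_hh_le hl m)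
    have h2 : ∑' k, Wt k * (Real.exp lam * (1 - lam * (1 - hh lam m k))) =
        Real.exp lam * (1 - lam + lam * ∑' k, Wt k * hh lam m k) := by
      have e : ∀ k, Wt k * (Real.exp lam * (1 - lam * (1 - hh lam m k))) =
          Real.exp lam * ((1 - lam) * Wt k + lam * (Wt k * hh lam m k)) := by
        intro k; ring
      simp_rw [e]
      rw [tsum_mul_left, (summable_Wt.mul_left _).tsum_add (hsh.mul_left _), tsum_mul_left,
        tsum_mul_left, tsum_Wt, mul_one]
    rw [h2] at h1
    refine h1.trans ?_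
    have h3 : 1 - lam + lam * ∑' k, Wt k * hh lam m k ≤
        Real.exp (-lam + lam * ∑' k, Wt k * hh lam m k) := by
      have := Real.add_one_le_exp (-lam + lam * ∑' k, Wt k * hh lam m k)
      linarith
    calc Real.exp lam * (1 - lam + lam * ∑' k, Wt k * hh lam m k)
        ≤ Real.exp lam * Real.exp (-lam + lam * ∑' k, Wt k * hh lam m k) :=
          mul_le_mul_of_nonneg_left h3 (Real.exp_pos _).le
      _ = Real.exp (lam * ∑' k, Wt k * hh lam m k) := by
          rw [← Real.exp_add]; congr 1; ring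
  · intro k
    refine (hb k).trans ?_
    have h1 := hh_le_one lam m k
    have h2 : 1 - lam * (1 - hh lam m k) ≤ 1 := by nlinarith
    have := Real.exp_pos lam
    nlinarith

/-- expected truncated mass -/
theorem integral_trn (m : ℕ) : Integrable (fun s => trn m s) law ∧
    ∫ s, trn m s ∂law = 1 - ∑' k, Wt k * (if m + 4 < 16 ^ k then 1 else 0) := by
  have hae : ∀ᵐ s ∂law, 0 ≤ s := by
    rw [ae_iff]
    simpa using law_nonneg
  have hae' : ∀ᵐ s ∂law, 0 ≤ trn m s := by
    filter_upwards [hae] with s hs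
    unfold trn; split_ifs
    · exact hs
    · exact le_rfl
  have hb : ∀ᵐ s ∂law, ‖trn m s‖ ≤ 2 ^ (m + 4) := by
    filter_upwards [hae'] with s hs
    rw [Real.norm_eq_abs, abs_of_nonneg hs]
    unfold trn; split_ifs with h
    · exact h
    · positivity
  have hint : Integrable (fun s => trn m s) law :=
    Integrable.of_bound (measurable_trn m).aestronglyMeasurable _ hb
  refine ⟨hint, ?_⟩
  have h1 : ∫⁻ s, ENNReal.ofReal (max (trn m s) 0) ∂law =
      ENNReal.ofReal (∑' k, Wt k * (if m + 4 < 16 ^ k then 0 else 1)) := by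
    rw [lintegral_law_real (fun s => max (trn m s) 0) ((measurable_trn m).max measurable_const)
      (fun s => le_max_right _ _) (C := 1)]
    · congr 1
      refine tsum_congr fun k => ?_
      have hX := X_pos k
      rw [trn_zero, max_self]
      unfold trn
      by_cases hk : m + 4 < 16 ^ k
      · rw [if_pos hk, if_neg (fun h => ((X_le_iff k m).1 h) hk)]
        simp
      · rw [if_neg hk, if_pos ((X_le_iff k m).2 hk), max_eq_left hX.le]
        field_simp
        ring
    · intro k
      have hX := X_pos k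
      rw [trn_zero, max_self]
      unfold trn
      split_ifs
      · rw [max_eq_left hX.le]
        have : 1 / X k * X k = 1 := by field_simp
        rw [this]; simp
      · simp
  rw [integral_eq_lintegral_of_nonneg_ae hae' (measurable_trn m).aestronglyMeasurable]
  have h2 : ∫⁻ s, ENNReal.ofReal (trn m s) ∂law = ∫⁻ s, ENNReal.ofReal (max (trn m s) 0) ∂law := by
    refine lintegral_congr_ae ?_
    filter_upwards [hae'] with s hs
    rw [max_eq_left hs]
  rw [h2, h1, ENNReal.toReal_ofReal]
  · have e : ∀ k, Wt k * (if m + 4 < 16 ^ k then (0 : ℝ) else 1) =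
        Wt k - Wt k * (if m + 4 < 16 ^ k then 1 else 0) := by
      intro k; split_ifs <;> ring
    simp_rw [e]
    rw [summable_Wt.tsum_sub (summable_Wt_mul (C := 1) (fun k => by split_ifs <;> simp)), tsum_Wt]
  · refine tsum_nonneg fun k => mul_nonneg (Wt_pos k).le ?_
    split_ifs <;> norm_num

/-- probability of an exceptional mass -/
theorem law_tail (m : ℕ) : law {s | ¬ (0 ≤ s ∧ s ≤ 2 ^ (m + 4))} ≤
    ENNReal.ofReal (∑' k, Wt k * (if m + 4 < 16 ^ k then 1 / X k else 0)) := by
  have hms : MeasurableSet {s : ℝ | ¬ (0 ≤ s ∧ s ≤ 2 ^ (m + 4))} :=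
    ((measurableSet_le measurable_const measurable_id).inter
      (measurableSet_le measurable_id measurable_const)).compl
  rw [← lintegral_indicator_one hms, lintegral_law _ (measurable_one.indicator hms)]
  have h0 : ∀ k, 0 ≤ (if m + 4 < 16 ^ k then 1 / X k else 0) := by
    intro k
    have := X_pos k
    split_ifs
    · positivity
    · exact le_rfl
  rw [← tsum_ofReal_Wt_mul h0 (C := 1)]
  · refine ENNReal.tsum_le_tsum fun k => ?_
    refine mul_le_mul_right ?_ _
    have hX := X_pos k
    have e1 : ({s : ℝ | ¬ (0 ≤ s ∧ s ≤ 2 ^ (m + 4))}).indicator (1 : ℝ → ENNReal) 0 = 0 := by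
      rw [Set.indicator_of_notMem]
      simp only [Set.mem_ofPred_eq, not_not]
      exact ⟨le_rfl, by positivity⟩
    rw [e1, mul_zero, add_zero]
    by_cases hk : m + 4 < 16 ^ k
    · rw [if_pos hk, Set.indicator_of_mem]
      · simp
      · simp only [Set.mem_ofPred_eq]
        intro h
        exact ((X_le_iff k m).1 h.2) hk
    · rw [if_neg hk, Set.indicator_of_notMem]
      · simp
      · simp only [Set.mem_ofPred_eq, not_not]
        exact ⟨hX.le, (X_le_iff k m).2 hk⟩
  · intro k
    rw [abs_of_nonneg (h0 k)]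
    split_ifs
    · exact inv_X_le k
    · norm_num

end Pool.H543.Sand
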