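import Mathlib

set_option autoImplicit false

/-!
The Green function of the rooted binary tree. Vertices are Boolean lists, the children of `w` are
`true :: w` and `false :: w`.
-/

namespace Pool.H543.Sand

open Finset

abbrev T : Type := List Bool

/-- indicator of `z` being an ancestor of `y` (or `y` itself) -/
noncomputable def anc (z y : T) : ℝ := if z <:+ y then 1 else 0

/-- vertices of level `m` -/
def lev : ℕ → Finset T
  | 0 => {[]}
  | m + 1 => (lev m).image (List.cons true) ∪ (lev m).image (List.cons false)

lemma mem_lev (m : ℕ) (y : T) : y ∈ lev m ↔ y.length = m := by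
  induction m generalizing y with
  | zero => simp [lev]
  | succ m ih =>
    simp only [lev, mem_union, mem_image]
    constructor
    · rintro (⟨z, hz, rfl⟩ | ⟨z, hz, rfl⟩) <;> simp [(ih z).1 hz]
    · intro h
      cases y with
      | nil => simp at h
      | cons a y =>
        have : y ∈ lev m := (ih y).2 (by simpa using h)
        cases a
        · exact Or.inr ⟨y, this, rfl⟩
        · exact Or.inl ⟨y, this, rfl⟩

lemma sum_lev_succ (m : ℕ) (f : T → ℝ) :
    ∑ y ∈ lev (m + 1), f y = ∑ y ∈ lev m, (f (true :: y) + f (false :: y)) := by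
  rw [lev, sum_union, sum_image, sum_image, sum_add_distrib]
  · intro a _ b _ h; simpa using h
  · intro a _ b _ h; simpa using h
  · rw [disjoint_left]
    intro y h1 h2
    simp only [mem_image] at h1 h2
    obtain ⟨a, _, rfl⟩ := h1
    obtain ⟨b, _, h⟩ := h2
    simp at h

lemma card_lev (m : ℕ) : (lev m).card = 2 ^ m := by
  have h : ∑ y ∈ lev m, (1 : ℝ) = 2 ^ m := by
    induction m with
    | zero => simp [lev]
    | succ m ih =>
      rw [sum_lev_succ]
      rw [← sum_add_sum_same, ih]
      ring
  rw [sum_const, nsmul_eq_mul, mul_one] at h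
  exact_mod_cast h
where
  sum_add_sum_same {s : Finset T} : ∑ y ∈ s, (1 : ℝ) + ∑ y ∈ s, (1 : ℝ) = ∑ y ∈ s, ((1 : ℝ) + 1) := by
    rw [sum_add_distrib]

lemma anc_nil (y : T) : anc [] y = 1 := by simp [anc]

lemma anc_split (x y : T) : anc (true :: x) y + anc (false :: x) y =
    anc x y - (if x = y then 1 else 0) := by
  unfold anc
  by_cases hxy : x = y
  · subst hxy
    have h1 : ∀ a, ¬ (a :: x <:+ x) := by
      intro a h
      have := h.length_le
      simp at this
    simp [h1]
  · by_cases hx : x <:+ y
    · obtain ⟨l, hl⟩ := hx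
      rcases List.eq_nil_or_concat l with rfl | ⟨l', a, rfl⟩
      · simp at hl; exact absurd hl hxy
      · have hl' : l' ++ (a :: x) = y := by rw [← hl]; simp
        have ha : a :: x <:+ y := ⟨l', hl'⟩
        have hx' : x <:+ y := ⟨l' ++ [a], by rw [← hl]; simp⟩
        have hother : ¬ ((!a) :: x <:+ y) := by
          intro h
          have h2 := List.suffix_of_suffix_length_le ha h (by simp)
          have h3 := h2.eq_of_length (by simp)
          simp at h3
        cases a <;> simp_all
    · have h1 : ∀ a, ¬ (a :: x <:+ y) := by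
        intro a h
        exact hx ((List.suffix_cons a x).trans h)
      simp [h1, hx, hxy]

lemma sum_anc (z : T) (m : ℕ) : ∑ y ∈ lev m, anc z y = if z.length ≤ m then 2 ^ (m - z.length) else 0 := by
  induction m with
  | zero =>
    cases z with
    | nil => simp [lev, anc]
    | cons a z => simp [lev, anc]
  | succ m ih =>
    rcases Nat.lt_or_ge z.length (m + 1) with h | h
    · rw [sum_lev_succ]
      have h1 : ∀ y ∈ lev m, anc z (true :: y) + anc z (false :: y) = 2 * anc z y := by
        intro y hy
        rw [mem_lev] at hy
        have h2 : ∀ a, anc z (a :: y) = anc z y := by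
          intro a
          unfold anc
          have : z <:+ a :: y ↔ z <:+ y := by
            rw [List.suffix_cons_iff]
            constructor
            · rintro (rfl | h')
              · simp at h; omega
              · exact h'
            · exact Or.inr
          simp [this]
        rw [h2, h2]; ring
      rw [sum_congr rfl h1, ← mul_sum, ih, if_pos (by omega), if_pos (by omega)]
      have : m + 1 - z.length = (m - z.length) + 1 := by omega
      rw [this, pow_succ]; ring
    · rcases h.lt_or_eq with h | h
      · rw [if_neg (by omega)]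
        refine sum_eq_zero fun y hy => ?_
        rw [mem_lev] at hy
        unfold anc
        rw [if_neg]
        intro h'
        have := h'.length_le
        omega
      · rw [if_pos (by omega), h, Nat.sub_self, pow_zero]
        rw [sum_eq_single z]
        · simp [anc]
        · intro y hy hyz
          rw [mem_lev] at hy
          unfold anc
          rw [if_neg]
          intro h'
          exact hyz (h'.eq_of_length (by omega)).symm
        · intro hz
          exact absurd ((mem_lev _ _).2 rfl) hz

/-- the unnormalised Green function -/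
noncomputable def Gam : T → T → ℝ
  | [], _ => 1
  | a :: x, y => Gam x y + 2 * 4 ^ x.length * anc (a :: x) y

lemma anc_nonneg (z y : T) : 0 ≤ anc z y := by unfold anc; split_ifs <;> norm_num

lemma Gam_nonneg (x y : T) : 0 ≤ Gam x y := by
  induction x with
  | nil => simp [Gam]
  | cons a x ih =>
    rw [Gam]
    have := anc_nonneg (a :: x) y
    positivity

lemma Gam_le (x y : T) : Gam x y ≤ 4 ^ min x.length y.length := by
  induction x with
  | nil => simp [Gam]
  | cons a x ih =>
    rw [Gam, List.length_cons]
    unfold anc
    split_ifs with h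
    · have h1 := h.length_le
      simp only [List.length_cons] at h1
      rw [min_eq_left (show x.length ≤ y.length by omega)] at ih
      rw [min_eq_left h1, pow_succ]
      have h3 : (0 : ℝ) < 4 ^ x.length := by positivity
      linarith
    · have : (4 : ℝ) ^ min x.length y.length ≤ 4 ^ min (x.length + 1) y.length :=
        pow_le_pow_right₀ (by norm_num) (by omega)
      linarith

lemma sum_Gam (x : T) (m : ℕ) : ∑ y ∈ lev m, Gam x y = 2 ^ (m + min x.length m) := by
  induction x with
  | nil =>
    simp only [Gam, sum_const, card_lev, nsmul_eq_mul]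
    simp
  | cons a x ih =>
    simp only [Gam]
    rw [sum_add_distrib, ih, ← mul_sum, sum_anc, List.length_cons]
    split_ifs with h
    · rw [min_eq_left (show x.length ≤ m by omega), min_eq_left h]
      obtain ⟨j, rfl⟩ : ∃ j, m = x.length + 1 + j := ⟨m - (x.length + 1), by omega⟩
      have e : x.length + 1 + j - (x.length + 1) = j := by omega
      rw [e, show (4 : ℝ) = 2 ^ 2 by norm_num, ← pow_mul]
      ring
    · rw [min_eq_right (show m ≤ x.length by omega), min_eq_right (show m ≤ x.length + 1 by omega)]
      simp

/-- the Green function -/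
noncomputable def Gr (x y : T) : ℝ := Gam x y / (2 ^ x.length * 2 ^ y.length)

lemma Gr_nonneg (x y : T) : 0 ≤ Gr x y := div_nonneg (Gam_nonneg x y) (by positivity)

lemma Gr_root (y : T) : Gr [] y = 1 / 2 ^ y.length := by simp [Gr, Gam]

lemma Gr_le (x y : T) (h : x.length ≤ y.length) : Gr x y ≤ 2 ^ x.length / 2 ^ y.length := by
  unfold Gr
  rw [div_le_div_iff₀ (by positivity) (by positivity)]
  have h1 := Gam_le x y
  rw [min_eq_left h, show (4 : ℝ) = 2 * 2 by norm_num, mul_pow] at h1
  have h2 : (0 : ℝ) < 2 ^ y.length := by positivity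
  nlinarith

lemma sum_Gr_ge (x : T) (m : ℕ) (h : x.length ≤ m) : ∑ y ∈ lev m, Gr x y = 1 := by
  unfold Gr
  have : ∀ y ∈ lev m, Gam x y / (2 ^ x.length * 2 ^ y.length) =
      Gam x y / (2 ^ x.length * 2 ^ m) := by
    intro y hy
    rw [(mem_lev _ _).1 hy]
  rw [sum_congr rfl this, ← sum_div, sum_Gam, min_eq_left h, pow_add]
  field_simp

lemma sum_Gr_lt (x : T) (m : ℕ) (h : m ≤ x.length) :
    ∑ y ∈ lev m, Gr x y = 2 ^ m / 2 ^ x.length := by
  unfold Gr
  have : ∀ y ∈ lev m, Gam x y / (2 ^ x.length * 2 ^ y.length) =
      Gam x y / (2 ^ x.length * 2 ^ m) := by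
    intro y hy
    rw [(mem_lev _ _).1 hy]
  rw [sum_congr rfl this, ← sum_div, sum_Gam, min_eq_right h, pow_add]
  field_simp

theorem lap_root (y : T) : 2 * Gr [] y - Gr [true] y - Gr [false] y = if [] = y then 1 else 0 := by
  have h := anc_split [] y
  simp only [Gr, Gam, List.length_nil, List.length_cons, anc_nil] at *
  have h2 : (0 : ℝ) < 2 ^ y.length := by positivity
  have e : 2 * (1 / (2 ^ 0 * 2 ^ y.length)) - (1 + 2 * 4 ^ 0 * anc [true] y) /
      (2 ^ (0 + 1) * 2 ^ y.length) - (1 + 2 * 4 ^ 0 * anc [false] y) / (2 ^ (0 + 1) * 2 ^ y.length)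
      = (1 - (anc [true] y + anc [false] y)) / (2 : ℝ) ^ y.length := by
    field_simp
    ring
  rw [e, h]
  split_ifs with hy
  · subst hy; simp
  · simp

theorem lap_step (a : Bool) (w y : T) :
    3 * Gr (a :: w) y - Gr w y - Gr (true :: a :: w) y - Gr (false :: a :: w) y =
      if a :: w = y then 1 else 0 := by
  have h := anc_split (a :: w) y
  simp only [Gr, Gam, List.length_cons] at *
  have h2 : (0 : ℝ) < 2 ^ y.length := by positivity
  have h3 : (0 : ℝ) < 2 ^ w.length := by positivity
  have h4 : (4 : ℝ) ^ w.length = 2 ^ w.length * 2 ^ w.length := by rw [← mul_pow]; norm_num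
  have h5 : anc (true :: a :: w) y = anc (a :: w) y - (if a :: w = y then 1 else 0) -
      anc (false :: a :: w) y := by linarith
  rw [h5]
  simp only [pow_succ, h4]
  split_ifs with hy
  · have hy' : y.length = w.length + 1 := by rw [← hy]; simp
    rw [hy']
    simp only [pow_succ]
    field_simp
    ring
  · field_simp
    ring

end Pool.H543.Sand
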