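import Mathlib
import Pool.Agent.H543Sand.Arith
import Pool.Agent.H543Sand.Tree
import Pool.Agent.H543Sand.Law

set_option autoImplicit false

/-!
Probability estimates in finite volume.
-/

namespace Pool.H543.Sand

open MeasureTheory ProbabilityTheory Finset

/-- leaves -/
abbrev Lf : Type := {w : T // sq w.length}

/-- vertices: tree vertices and leaves -/
abbrev V : Type := T ⊕ Lf

/-- the tree vertex carrying a vertex -/
def base : V → T := Sum.elim id Subtype.val

/-- tree vertices of level at most `n` -/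
def TB (n : ℕ) : Finset T := (range (n + 1)).biUnion lev

lemma mem_TB (n : ℕ) (y : T) : y ∈ TB n ↔ y.length ≤ n := by
  simp only [TB, mem_biUnion, mem_range, mem_lev]
  constructor
  · rintro ⟨m, hm, h⟩; omega
  · intro h; exact ⟨_, by omega, rfl⟩

lemma sum_TB (n : ℕ) (F : T → ℝ) : ∑ w ∈ TB n, F w = ∑ m ∈ range (n + 1), ∑ w ∈ lev m, F w := by
  rw [TB, sum_biUnion]
  intro a _ b _ hab
  rw [Function.onFun, disjoint_left]
  intro y h1 h2
  rw [mem_lev] at h1 h2
  exact hab (h1.symm.trans h2)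

/-- vertices of level at most `n` -/
def VB (n : ℕ) : Finset V := (TB n).disjSum ((TB n).subtype (fun w => sq w.length))

lemma mem_VB (n : ℕ) (p : V) : p ∈ VB n ↔ (base p).length ≤ n := by
  rcases p with w | w
  · simp [VB, base, mem_TB]
  · simp [VB, base, mem_TB]

lemma sum_VB (n : ℕ) (F : T → ℝ) : ∑ p ∈ VB n, F (base p) =
    ∑ m ∈ range (n + 1), (kap m : ℝ) * ∑ w ∈ lev m, F w := by
  rw [VB, sum_disjSum]
  have h1 : ∑ x ∈ (TB n).subtype (fun w => sq w.length), F (base (Sum.inr x)) =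
      ∑ x ∈ TB n with sq x.length, F x :=
    Finset.sum_subtype_eq_sum_filter (s := TB n) F (p := fun w => sq w.length)
  rw [h1, sum_filter]
  have h2 : ∑ x ∈ TB n, F (base (Sum.inl x)) = ∑ x ∈ TB n, F x := rfl
  rw [h2, sum_TB, sum_TB, ← sum_add_distrib]
  refine sum_congr rfl fun m _ => ?_
  have h3 : ∑ w ∈ lev m, (if sq w.length then F w else 0) = (if sq m then 1 else 0) * ∑ w ∈ lev m, F w := by
    rw [mul_sum]
    refine sum_congr rfl fun w hw => ?_
    rw [(mem_lev _ _).1 hw]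
    split_ifs <;> simp
  rw [h3]
  unfold kap
  push_cast
  ring

/-- the law of the sandpile -/
noncomputable def PP : Measure (V → ℝ) := Measure.infinitePi (fun _ : V => law)

instance : IsProbabilityMeasure PP := by unfold PP; infer_instance

/-- the constants -/
noncomputable def cn (n : ℕ) : ℝ := 100 + ∑' k, Wt k * aK n k

/-- truncated potential -/
noncomputable def Yt (n : ℕ) (x : T) (σ : V → ℝ) : ℝ :=
  cn n + ∑ p ∈ VB n, Gr x (base p) * (trn (base p).length (σ p) - 1)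

/-- the potential -/
noncomputable def Yv (n : ℕ) (x : T) (σ : V → ℝ) : ℝ :=
  cn n + ∑ p ∈ VB n, Gr x (base p) * (σ p - 1)

lemma measurable_Yt (n : ℕ) (x : T) : Measurable (Yt n x) := by
  unfold Yt
  refine measurable_const.add (Finset.measurable_sum _ fun p _ => ?_)
  exact (((measurable_trn _).comp (measurable_pi_apply p)).sub_const 1).const_mul _

lemma aK_nonneg (n k : ℕ) : 0 ≤ aK n k := by
  unfold aK
  refine sum_nonneg fun m _ => mul_nonneg (Nat.cast_nonneg _) ?_
  split_ifs <;> norm_num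

lemma aK_le (n k : ℕ) : aK n k ≤ 2 * (n + 1) := by
  unfold aK
  have : ∑ m ∈ range (n + 1), (kap m : ℝ) * (if m + 4 < 16 ^ k then 1 else 0) ≤
      ∑ m ∈ range (n + 1), (2 : ℝ) := by
    refine sum_le_sum fun m _ => ?_
    have h6 : (kap m : ℝ) ≤ 2 := by exact_mod_cast kap_le _
    have h7 : (0 : ℝ) ≤ kap m := Nat.cast_nonneg _
    split_ifs <;> linarith
  refine this.trans ?_
  rw [sum_const, card_range, nsmul_eq_mul]
  push_cast
  linarith

lemma abs_aK (n k : ℕ) : |aK n k| ≤ 2 * (n + 1) := by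
  rw [abs_of_nonneg (aK_nonneg n k)]; exact aK_le n k

/-- product formula -/
lemma lintegral_prod_PP (s : Finset V) (f : V → ℝ → ENNReal) (hf : ∀ p, Measurable (f p)) :
    ∫⁻ σ, ∏ p ∈ s, f p (σ p) ∂PP = ∏ p ∈ s, ∫⁻ a, f p a ∂law := by
  have h1 : iIndepFun (fun (p : V) (σ : V → ℝ) => f p (σ p)) PP :=
    iIndepFun_infinitePi (P := fun _ : V => law) hf
  rw [lintegral_prod_eq_prod_lintegral_of_indepFun s _ h1
    (fun p => (hf p).comp (measurable_pi_apply p))]
  refine prod_congr rfl fun p _ => ?_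
  have h2 : Measure.map (fun σ : V → ℝ => σ p) PP = law :=
    Measure.infinitePi_map_eval (fun _ : V => law) p
  rw [← h2, lintegral_map (hf p) (measurable_pi_apply p)]

theorem lap_bound (n : ℕ) (x : T) (hx : x.length ≤ n) (t : ℕ) (g : ℝ)
    (hg : g = 0 ∨ ∃ k0, 16 ^ k0 ≤ x.length ∧ g = 2 ^ k0 / 4) :
    ∫⁻ σ, ENNReal.ofReal (Real.exp (-(2 ^ t * Yt n x σ))) ∂PP ≤
      ENNReal.ofReal (Real.exp (2 ^ t * (-100 + (14 + 2 * t) - g))) := by
  set θ : ℝ := 2 ^ t with hθ
  have hθ0 : 0 < θ := by positivity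
  -- factorisation
  have hfac : ∀ σ, ENNReal.ofReal (Real.exp (-(θ * Yt n x σ))) =
      ENNReal.ofReal (Real.exp (-(θ * cn n))) * ∏ p ∈ VB n, ENNReal.ofReal
        (Real.exp (-(θ * Gr x (base p) * (trn (base p).length (σ p) - 1)))) := by
    intro σ
    rw [← ENNReal.ofReal_prod_of_nonneg (fun _ _ => (Real.exp_pos _).le), ← Real.exp_sum,
      ← ENNReal.ofReal_mul (Real.exp_pos _).le, ← Real.exp_add]
    congr 2
    unfold Yt
    rw [mul_add, neg_add, mul_sum, ← sum_neg_distrib]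
    congr 1
    refine sum_congr rfl fun p _ => by ring
  simp_rw [hfac]
  have hmeas : ∀ p : V, Measurable (fun s : ℝ => ENNReal.ofReal
      (Real.exp (-(θ * Gr x (base p) * (trn (base p).length s - 1))))) := by
    intro p
    have := measurable_trn (base p).length
    exact ENNReal.measurable_ofReal.comp (by fun_prop)
  have hmp : Measurable (fun σ : V → ℝ => ∏ p ∈ VB n, ENNReal.ofReal
      (Real.exp (-(θ * Gr x (base p) * (trn (base p).length (σ p) - 1))))) :=
    Finset.measurable_prod _ fun p _ => (hmeas p).comp (measurable_pi_apply p)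
  rw [lintegral_const_mul _ hmp,
    lintegral_prod_PP (VB n) (fun p s => ENNReal.ofReal
      (Real.exp (-(θ * Gr x (base p) * (trn (base p).length s - 1))))) hmeas]
  have h1 : ∏ p ∈ VB n, ∫⁻ s, ENNReal.ofReal
      (Real.exp (-(θ * Gr x (base p) * (trn (base p).length s - 1)))) ∂law ≤
      ∏ p ∈ VB n, ENNReal.ofReal (Real.exp (θ * Gr x (base p) *
        ∑' k, Wt k * hh (θ * Gr x (base p)) (base p).length k)) := by
    refine prod_le_prod' fun p _ => ?_
    exact laplace _ (mul_nonneg hθ0.le (Gr_nonneg _ _)) _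
  refine (mul_le_mul_right h1 _).trans ?_
  rw [← ENNReal.ofReal_prod_of_nonneg (fun _ _ => (Real.exp_pos _).le), ← Real.exp_sum,
      ← ENNReal.ofReal_mul (Real.exp_pos _).le, ← Real.exp_add]
  refine ENNReal.ofReal_le_ofReal (Real.exp_le_exp.2 ?_)
  -- the exponent
  set b : ℕ → ℕ → ℝ := fun k m => ∑ w ∈ lev m, Gr x w * hh (θ * Gr x w) m k with hb
  have hhb : ∀ w m k, 0 ≤ hh (θ * Gr x w) m k ∧ hh (θ * Gr x w) m k ≤ 1 := fun w m k =>
    ⟨hh_nonneg (mul_nonneg hθ0.le (Gr_nonneg _ _)) m k, hh_le_one _ _ _⟩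
  have hle : ∀ k m, b k m ≤ ∑ w ∈ lev m, Gr x w := by
    intro k m
    refine sum_le_sum fun w _ => ?_
    have h2 := (hhb w m k).2
    have h3 := Gr_nonneg x w
    nlinarith
  have hb0 : ∀ k m, 0 ≤ b k m := fun k m =>
    sum_nonneg fun w _ => mul_nonneg (Gr_nonneg _ _) (hhb w m k).1
  have hlev := fun k => level_sum n x.length t k hx (b k)
    (fun m hm => (hle k m).trans_eq (sum_Gr_lt x m hm.le))
    (fun m hm => (hle k m).trans_eq (sum_Gr_ge x m hm))
    (by
      intro j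
      have h16 : 0 < 16 ^ k := by positivity
      set m := x.length + (16 ^ k + t) + j with hm
      have h4 : ∀ w ∈ lev m, Gr x w * hh (θ * Gr x w) m k ≤ Gr x w * (1 / 2) ^ (j + 1) := by
        intro w hw
        refine mul_le_mul_of_nonneg_left ?_ (Gr_nonneg _ _)
        unfold hh
        rw [if_neg (by omega)]
        refine (min_le_right _ _).trans ?_
        have h5 := Gr_le x w (by rw [(mem_lev _ _).1 hw]; omega)
        rw [(mem_lev _ _).1 hw] at h5
        have h6 : θ * Gr x w * X k / 2 ≤ θ * (2 ^ x.length / 2 ^ m) * X k / 2 := by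
          have := X_pos k
          gcongr
        refine h6.trans (le_of_eq ?_)
        rw [hθ, hm, X]
        simp only [pow_add, one_div, inv_pow]
        field_simp
      refine (sum_le_sum h4).trans ?_
      rw [← sum_mul, sum_Gr_ge x m (by omega), one_mul])
  -- rewriting of the sum
  have hsumm : ∀ m k, |b k m| ≤ 1 := by
    intro m k
    rw [abs_of_nonneg (hb0 k m)]
    refine (hle k m).trans ?_
    rcases le_total x.length m with h | h
    · rw [sum_Gr_ge x m h]
    · rw [sum_Gr_lt x m h, div_le_one (by positivity)]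
      exact pow_le_pow_right₀ (by norm_num) h
  have hQ : ∑ p ∈ VB n, θ * Gr x (base p) * ∑' k, Wt k * hh (θ * Gr x (base p)) (base p).length k =
      θ * ∑' k, Wt k * ∑ m ∈ range (n + 1), (kap m : ℝ) * b k m := by
    rw [sum_VB n (fun w => θ * Gr x w * ∑' k, Wt k * hh (θ * Gr x w) w.length k)]
    have h2 : ∀ m, ∑ w ∈ lev m, θ * Gr x w * ∑' k, Wt k * hh (θ * Gr x w) w.length k =
        θ * ∑' k, Wt k * b k m := by
      intro m
      have h3 : ∀ w ∈ lev m, θ * Gr x w * ∑' k, Wt k * hh (θ * Gr x w) w.length k =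
          ∑' k, θ * (Wt k * (Gr x w * hh (θ * Gr x w) m k)) := by
        intro w hw
        rw [(mem_lev _ _).1 hw, ← tsum_mul_left]
        refine tsum_congr fun k => by ring
      rw [sum_congr rfl h3, ← Summable.tsum_finsetSum, ← tsum_mul_left]
      · refine tsum_congr fun k => ?_
        rw [hb]
        simp only [mul_sum]
      · intro w _
        refine Summable.mul_left _ ?_
        refine summable_Wt_mul (C := Gr x w) fun k => ?_
        rw [abs_of_nonneg (mul_nonneg (Gr_nonneg _ _) (hhb w m k).1)]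
        have := (hhb w m k).2
        nlinarith [Gr_nonneg x w]
    simp_rw [h2]
    have h4 : ∀ m, (kap m : ℝ) * (θ * ∑' k, Wt k * b k m) = ∑' k, θ * (Wt k * (kap m * b k m)) := by
      intro m
      rw [← tsum_mul_left, ← tsum_mul_left]
      refine tsum_congr fun k => by ring
    simp_rw [h4]
    rw [← Summable.tsum_finsetSum, ← tsum_mul_left]
    · refine tsum_congr fun k => ?_
      simp only [mul_sum]
    · intro m _
      refine Summable.mul_left _ ?_
      refine summable_Wt_mul (C := 2) fun k => ?_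
      have h6 : (kap m : ℝ) ≤ 2 := by exact_mod_cast kap_le _
      have h7 : (0 : ℝ) ≤ kap m := Nat.cast_nonneg _
      have h8 := hsumm m k
      rw [abs_mul, abs_of_nonneg h7]
      have := abs_nonneg (b k m)
      nlinarith
  rw [hQ]
  -- comparison
  have hQb : ∀ k, |∑ m ∈ range (n + 1), (kap m : ℝ) * b k m| ≤ 2 * (n + 1) + (14 + 2 * t) := by
    intro k
    rw [abs_of_nonneg (sum_nonneg fun m _ => mul_nonneg (Nat.cast_nonneg _) (hb0 k m))]
    have h2 := (hlev k).1
    have h3 := aK_le n k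
    linarith
  have hsQ : Summable fun k => Wt k * ∑ m ∈ range (n + 1), (kap m : ℝ) * b k m :=
    summable_Wt_mul hQb
  have hsa : Summable fun k => Wt k * aK n k := summable_Wt_mul (abs_aK n)
  have hmain : ∑' k, Wt k * ∑ m ∈ range (n + 1), (kap m : ℝ) * b k m ≤
      ∑' k, Wt k * aK n k + (14 + 2 * t) - g := by
    rcases hg with hg | ⟨k0, hk0, hg⟩
    · have h2 : ∑' k, Wt k * ∑ m ∈ range (n + 1), (kap m : ℝ) * b k m ≤
          ∑' k, (Wt k * aK n k + (14 + 2 * t) * Wt k) := by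
        refine hsQ.tsum_le_tsum (fun k => ?_) (hsa.add (summable_Wt.mul_left _))
        have h3 := mul_le_mul_of_nonneg_left (hlev k).1 (Wt_pos k).le
        linarith
      rw [hsa.tsum_add (summable_Wt.mul_left _), tsum_mul_left, tsum_Wt] at h2
      rw [hg]; linarith
    · have hsd : Summable fun k => (if k = k0 then Wt k0 * (4 ^ k0 / 2) else 0) :=
        summable_of_ne_finset_zero (s := {k0}) (fun k hk => by
          rw [if_neg (by simpa using hk)])
      have h2 : ∑' k, Wt k * ∑ m ∈ range (n + 1), (kap m : ℝ) * b k m ≤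
          ∑' k, ((Wt k * aK n k + (14 + 2 * t) * Wt k) -
            (if k = k0 then Wt k0 * (4 ^ k0 / 2) else 0)) := by
        refine hsQ.tsum_le_tsum (fun k => ?_) ((hsa.add (summable_Wt.mul_left _)).sub hsd)
        by_cases hk : k = k0
        · subst hk
          rw [if_pos rfl]
          have h3 := mul_le_mul_of_nonneg_left ((hlev k).2 hk0) (Wt_pos k).le
          linarith
        · rw [if_neg hk]
          have h3 := mul_le_mul_of_nonneg_left (hlev k).1 (Wt_pos k).le
          linarith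
      rw [(hsa.add (summable_Wt.mul_left _)).tsum_sub hsd, hsa.tsum_add (summable_Wt.mul_left _),
        tsum_mul_left, tsum_Wt, tsum_ite_eq] at h2
      have h4 : Wt k0 * (4 ^ k0 / 2) = g := by
        rw [hg, Wt, show (4 : ℝ) = 2 * 2 by norm_num, mul_pow, one_div_pow, pow_succ]
        field_simp
      linarith
  have h5 := mul_le_mul_of_nonneg_left hmain hθ0.le
  unfold cn
  linarith

/-- lower tail -/
theorem low_tail (n : ℕ) (x : T) (hx : x.length ≤ n) :
    PP {σ | Yt n x σ < 1} ≤ ENNReal.ofReal (Real.exp (-(3 * (x.length + 1)))) := by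
  set t := tt x.length with ht
  have hθ : ((x.length : ℝ) + 1) ≤ 2 ^ t := by exact_mod_cast lt_two_pow_tt x.length
  obtain ⟨g, hg, hm⟩ : ∃ g : ℝ, (g = 0 ∨ ∃ k0, 16 ^ k0 ≤ x.length ∧ g = 2 ^ k0 / 4) ∧
      1 - 100 + (14 + 2 * (t : ℝ)) - g ≤ -3 := by
    by_cases hr : x.length = 0
    · refine ⟨0, Or.inl rfl, ?_⟩
      rw [ht, hr]
      simp [tt]
      norm_num
    · exact ⟨_, Or.inr ⟨Nat.log 16 x.length, Nat.pow_log_le_self 16 hr, rfl⟩, margin _ hr⟩
  have h1 := lap_bound n x hx t g hg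
  have h2 : PP {σ | Yt n x σ < 1} ≤ PP {σ | ENNReal.ofReal (Real.exp (-(2 ^ t))) ≤
      ENNReal.ofReal (Real.exp (-(2 ^ t * Yt n x σ)))} := by
    refine measure_mono fun σ hσ => ?_
    have h3 : Yt n x σ < 1 := hσ
    refine ENNReal.ofReal_le_ofReal (Real.exp_le_exp.2 ?_)
    have : (0 : ℝ) < 2 ^ t := by positivity
    nlinarith
  refine h2.trans ?_
  have h4 : (ENNReal.ofReal (Real.exp (-(2 ^ t)))) ≠ 0 := by
    rw [Ne, ENNReal.ofReal_eq_zero, not_le]; exact Real.exp_pos _
  refine (meas_ge_le_lintegral_div ?_ h4 ENNReal.ofReal_ne_top).trans ?_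
  · have := measurable_Yt n x
    exact (ENNReal.measurable_ofReal.comp (by fun_prop)).aemeasurable
  · refine (ENNReal.div_le_div_right h1 _).trans ?_
    rw [← ENNReal.ofReal_div_of_pos (Real.exp_pos _), ← Real.exp_sub]
    refine ENNReal.ofReal_le_ofReal (Real.exp_le_exp.2 ?_)
    have : (0 : ℝ) < 2 ^ t := by positivity
    nlinarith

lemma exp_three (m : ℕ) : (2 : ℝ) ^ m * Real.exp (-(3 * ((m : ℝ) + 1))) ≤ (1 / 8) * (1 / 2) ^ (m + 1) := by
  have h1 : Real.exp (-3) ≤ 1 / 16 := by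
    rw [Real.exp_neg, inv_le_comm₀ (Real.exp_pos _) (by norm_num)]
    have := Real.exp_one_gt_d9
    have h2 : Real.exp 3 = Real.exp 1 ^ 3 := by rw [← Real.exp_nat_mul]; norm_num
    rw [h2]
    have h3 : (2.7 : ℝ) ^ 3 ≤ Real.exp 1 ^ 3 := pow_le_pow_left₀ (by norm_num) (by linarith) 3
    norm_num at h3 ⊢
    linarith
  have h2 : Real.exp (-(3 * ((m : ℝ) + 1))) = Real.exp (-3) ^ (m + 1) := by
    rw [← Real.exp_nat_mul]; congr 1; push_cast; ring
  rw [h2]
  have h3 : Real.exp (-3) ^ (m + 1) ≤ (1 / 16) ^ (m + 1) :=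
    pow_le_pow_left₀ (Real.exp_pos _).le h1 _
  have h4 : (2 : ℝ) ^ m * (1 / 16) ^ (m + 1) ≤ (1 / 8) * (1 / 2) ^ (m + 1) := by
    have e1 : (1 / 16 : ℝ) ^ (m + 1) = (1 / 2) ^ (m + 1) * (1 / 8) ^ (m + 1) := by
      rw [← mul_pow]; norm_num
    have e2 : (1 / 8 : ℝ) ^ (m + 1) = (1 / 2) ^ m * (1 / 4) ^ m * (1 / 8) := by
      rw [← mul_pow, pow_succ]; norm_num
    rw [e1, e2]
    have e3 : (2 : ℝ) ^ m * (1 / 2) ^ m = 1 := by rw [← mul_pow]; norm_num
    have e4 : (1 / 4 : ℝ) ^ m ≤ 1 := pow_le_one₀ (by norm_num) (by norm_num)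
    have e5 : (0 : ℝ) < (1 / 2) ^ (m + 1) := by positivity
    calc (2 : ℝ) ^ m * ((1 / 2) ^ (m + 1) * ((1 / 2) ^ m * (1 / 4) ^ m * (1 / 8)))
        = (2 ^ m * (1 / 2) ^ m) * ((1 / 2) ^ (m + 1) * (1 / 8)) * (1 / 4) ^ m := by ring
      _ = ((1 / 2) ^ (m + 1) * (1 / 8)) * (1 / 4) ^ m := by rw [e3, one_mul]
      _ ≤ ((1 / 2) ^ (m + 1) * (1 / 8)) * 1 := mul_le_mul_of_nonneg_left e4 (by positivity)
      _ = 1 / 8 * (1 / 2) ^ (m + 1) := by ring
  calc _ ≤ (2 : ℝ) ^ m * (1 / 16) ^ (m + 1) := mul_le_mul_of_nonneg_left h3 (by positivity)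
    _ ≤ _ := h4

/-- union bound for the lower tail -/
theorem low_union (n : ℕ) : PP {σ | ∃ x ∈ TB n, Yt n x σ < 1} ≤ ENNReal.ofReal (1 / 8) := by
  have h1 : {σ : V → ℝ | ∃ x ∈ TB n, Yt n x σ < 1} = ⋃ x ∈ TB n, {σ | Yt n x σ < 1} := by
    ext σ; simp
  rw [h1]
  refine (measure_biUnion_finset_le _ _).trans ?_
  have h2 : ∑ x ∈ TB n, PP {σ | Yt n x σ < 1} ≤
      ∑ x ∈ TB n, ENNReal.ofReal (Real.exp (-(3 * ((x.length : ℝ) + 1)))) :=
    sum_le_sum fun x hx => low_tail n x ((mem_TB _ _).1 hx)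
  refine h2.trans ?_
  rw [← ENNReal.ofReal_sum_of_nonneg (fun _ _ => (Real.exp_pos _).le)]
  refine ENNReal.ofReal_le_ofReal ?_
  rw [sum_TB n (fun x => Real.exp (-(3 * ((x.length : ℝ) + 1))))]
  have h3 : ∀ m, ∑ w ∈ lev m, Real.exp (-(3 * ((w.length : ℝ) + 1))) ≤ (1 / 8) * (1 / 2) ^ (m + 1) := by
    intro m
    have : ∀ w ∈ lev m, Real.exp (-(3 * ((w.length : ℝ) + 1))) = Real.exp (-(3 * ((m : ℝ) + 1))) := by
      intro w hw
      rw [(mem_lev _ _).1 hw]
    rw [sum_congr rfl this, sum_const, card_lev, nsmul_eq_mul]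
    push_cast
    exact exp_three m
  refine (sum_le_sum fun m _ => h3 m).trans ?_
  rw [← mul_sum]
  have := geom_half (n + 1)
  linarith

/-- the expectation at the root -/
theorem mean_root (n : ℕ) : Integrable (Yt n []) PP ∧ ∫ σ, Yt n [] σ ∂PP = 100 := by
  have hev : ∀ p : V, MeasurePreserving (fun σ : V → ℝ => σ p) PP law := fun p =>
    measurePreserving_eval_infinitePi (fun _ : V => law) p
  have hint : ∀ (m : ℕ) (p : V), Integrable (fun σ : V → ℝ => trn m (σ p)) PP := fun m p =>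
    (hev p).integrable_comp_of_integrable (integral_trn m).1
  have hval : ∀ (m : ℕ) (p : V), ∫ σ, trn m (σ p) ∂PP =
      1 - ∑' k, Wt k * (if m + 4 < 16 ^ k then 1 else 0) := by
    intro m p
    rw [← (integral_trn m).2, ← (hev p).map_eq]
    rw [integral_map (measurable_pi_apply p).aemeasurable (measurable_trn m).aestronglyMeasurable]
  have hterm : ∀ p ∈ VB n, Integrable (fun σ : V → ℝ =>
      Gr [] (base p) * (trn (base p).length (σ p) - 1)) PP := fun p _ =>
    ((hint _ p).sub (integrable_const 1)).const_mul _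
  refine ⟨(integrable_const _).add (integrable_finsetSum _ hterm), ?_⟩
  unfold Yt
  rw [integral_add (integrable_const _) (integrable_finsetSum _ hterm), integral_finsetSum _ hterm]
  have h1 : ∀ p ∈ VB n, ∫ σ, Gr [] (base p) * (trn (base p).length (σ p) - 1) ∂PP =
      (fun w : T => - (1 / 2 ^ w.length *
        ∑' k, Wt k * (if w.length + 4 < 16 ^ k then 1 else 0))) (base p) := by
    intro p _
    rw [integral_const_mul, integral_sub (hint _ p) (integrable_const 1), hval, Gr_root]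
    simp
  rw [sum_congr rfl h1, sum_VB n (fun w : T => - (1 / 2 ^ w.length *
        ∑' k, Wt k * (if w.length + 4 < 16 ^ k then 1 else 0)))]
  have h2 : ∀ m, ∑ w ∈ lev m, (- (1 / 2 ^ w.length *
        ∑' k, Wt k * (if w.length + 4 < 16 ^ k then (1 : ℝ) else 0))) =
        - ∑' k, Wt k * (if m + 4 < 16 ^ k then (1 : ℝ) else 0) := by
    intro m
    have : ∀ w ∈ lev m, (- (1 / 2 ^ w.length *
        ∑' k, Wt k * (if w.length + 4 < 16 ^ k then (1 : ℝ) else 0))) =
        - (1 / 2 ^ m * ∑' k, Wt k * (if m + 4 < 16 ^ k then (1 : ℝ) else 0)) := by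
      intro w hw
      rw [(mem_lev _ _).1 hw]
    rw [sum_congr rfl this, sum_const, card_lev, nsmul_eq_mul]
    push_cast
    field_simp
  simp_rw [h2]
  have hs : ∀ m : ℕ, Summable fun k => Wt k * (if m + 4 < 16 ^ k then (1 : ℝ) else 0) := fun m =>
    summable_Wt_mul (C := 1) (fun k => by split_ifs <;> simp)
  have h3 : ∑ m ∈ range (n + 1), (kap m : ℝ) * (- ∑' k, Wt k * (if m + 4 < 16 ^ k then (1 : ℝ) else 0))
      = - ∑' k, Wt k * aK n k := by
    have h4 : ∀ m, (kap m : ℝ) * (- ∑' k, Wt k * (if m + 4 < 16 ^ k then (1 : ℝ) else 0)) =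
        - ∑' k, Wt k * (kap m * (if m + 4 < 16 ^ k then (1 : ℝ) else 0)) := by
      intro m
      rw [mul_neg, ← tsum_mul_left]
      congr 1
      refine tsum_congr fun k => by ring
    simp_rw [h4]
    rw [sum_neg_distrib, ← Summable.tsum_finsetSum]
    · congr 1
      refine tsum_congr fun k => ?_
      rw [aK, mul_sum]
    · intro m _
      refine summable_Wt_mul (C := 2) fun k => ?_
      have h6 : (kap m : ℝ) ≤ 2 := by exact_mod_cast kap_le _
      have h7 : (0 : ℝ) ≤ kap m := Nat.cast_nonneg _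
      rw [abs_mul, abs_of_nonneg h7]
      split_ifs
      · rw [abs_one, mul_one]; exact h6
      · rw [abs_zero, mul_zero]; norm_num
  rw [h3]
  unfold cn
  simp

/-- upper tail at the root -/
theorem up_root (n : ℕ) : PP {σ | 808 < Yt n [] σ} ≤ ENNReal.ofReal (1 / 8) := by
  have h1 := lap_bound n [] (by simp) 0 0 (Or.inl rfl)
  have h2 : ∫⁻ σ, ENNReal.ofReal (Real.exp (-(Yt n [] σ))) ∂PP ≤ ENNReal.ofReal 1 := by
    simp only [pow_zero, one_mul] at h1
    refine h1.trans (ENNReal.ofReal_le_ofReal ?_)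
    rw [Real.exp_le_one_iff]
    norm_num
  have hY := mean_root n
  have hmY := measurable_Yt n []
  have hint : Integrable (fun σ => Real.exp (-(Yt n [] σ))) PP := by
    refine ⟨(Real.measurable_exp.comp hmY.neg).aestronglyMeasurable, ?_⟩
    rw [hasFiniteIntegral_iff_ofReal (Filter.Eventually.of_forall fun s => (Real.exp_pos _).le)]
    exact lt_of_le_of_lt h2 ENNReal.ofReal_lt_top
  have hme : Measurable (fun σ => Real.exp (-(Yt n [] σ))) := Real.measurable_exp.comp hmY.neg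
  have hE : ∫ σ, Real.exp (-(Yt n [] σ)) ∂PP ≤ 1 := by
    rw [integral_eq_lintegral_of_nonneg_ae (Filter.Eventually.of_forall fun s => (Real.exp_pos _).le)
      hme.aestronglyMeasurable]
    have := ENNReal.toReal_mono ENNReal.ofReal_ne_top h2
    simpa using this
  have hpos : ∀ σ, 0 ≤ Yt n [] σ + Real.exp (-(Yt n [] σ)) := by
    intro σ
    have := Real.add_one_le_exp (-(Yt n [] σ))
    linarith
  have h3 : ∫⁻ σ, ENNReal.ofReal (Yt n [] σ + Real.exp (-(Yt n [] σ))) ∂PP ≤ ENNReal.ofReal 101 := by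
    have hadd : Integrable (fun σ => Yt n [] σ + Real.exp (-(Yt n [] σ))) PP := hY.1.add hint
    rw [← ofReal_integral_eq_lintegral_ofReal hadd (Filter.Eventually.of_forall hpos)]
    refine ENNReal.ofReal_le_ofReal ?_
    have : ∫ σ, (Yt n [] σ + Real.exp (-(Yt n [] σ))) ∂PP = 100 + ∫ σ, Real.exp (-(Yt n [] σ)) ∂PP := by
      rw [integral_add hY.1 hint, hY.2]
    linarith
  have h4 : PP {σ | 808 < Yt n [] σ} ≤ PP {σ | ENNReal.ofReal 808 ≤
      ENNReal.ofReal (Yt n [] σ + Real.exp (-(Yt n [] σ)))} := by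
    refine measure_mono fun σ hσ => ?_
    have h5 : 808 < Yt n [] σ := hσ
    refine ENNReal.ofReal_le_ofReal ?_
    have := Real.exp_pos (-(Yt n [] σ))
    linarith
  refine h4.trans ?_
  refine (meas_ge_le_lintegral_div (ENNReal.measurable_ofReal.comp (by fun_prop)).aemeasurable
    (by simp) ENNReal.ofReal_ne_top).trans ?_
  refine (ENNReal.div_le_div_right h3 _).trans ?_
  rw [← ENNReal.ofReal_div_of_pos (by norm_num)]
  refine ENNReal.ofReal_le_ofReal ?_
  norm_num

lemma two_pow_sum (k n : ℕ) : ∑ m ∈ range (n + 1), (kap m : ℝ) * (2 ^ m * (if m + 4 < 16 ^ k then 1 / X k else 0))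
    ≤ 1 / 8 := by
  have hX := X_pos k
  have h1 : ∀ N : ℕ, ∑ m ∈ range N, (2 : ℝ) ^ m ≤ 2 ^ N := by
    intro N
    induction N with
    | zero => simp
    | succ N ih => rw [sum_range_succ, pow_succ]; linarith
  by_cases hk : 16 ^ k ≤ 4
  · have : ∀ m ∈ range (n + 1), (kap m : ℝ) * (2 ^ m * (if m + 4 < 16 ^ k then 1 / X k else 0)) = 0 := by
      intro m _
      rw [if_neg (by omega)]; simp
    rw [sum_congr rfl this]; norm_num
  · push Not at hk
    have h2 : ∑ m ∈ range (n + 1), (kap m : ℝ) * (2 ^ m * (if m + 4 < 16 ^ k then 1 / X k else 0)) ≤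
        ∑ m ∈ range (n + 1), (if m < 16 ^ k - 4 then 2 * (2 ^ m * (1 / X k)) else 0) := by
      refine sum_le_sum fun m _ => ?_
      have h6 : (kap m : ℝ) ≤ 2 := by exact_mod_cast kap_le _
      by_cases hm : m + 4 < 16 ^ k
      · rw [if_pos hm, if_pos (by omega)]
        exact mul_le_mul_of_nonneg_right h6 (by positivity)
      · rw [if_neg hm, if_neg (by omega)]; simp
    refine h2.trans ?_
    rw [← sum_filter]
    have h3 : ∑ m ∈ range (n + 1) with m < 16 ^ k - 4, 2 * ((2 : ℝ) ^ m * (1 / X k)) ≤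
        ∑ m ∈ range (16 ^ k - 4), 2 * ((2 : ℝ) ^ m * (1 / X k)) := by
      refine sum_le_sum_of_subset_of_nonneg ?_ (fun m _ _ => by positivity)
      intro m hm
      simp only [mem_filter, mem_range] at hm ⊢
      exact hm.2
    refine h3.trans ?_
    rw [← mul_sum, ← sum_mul]
    have h4 := h1 (16 ^ k - 4)
    have h5 : X k = 2 ^ (16 ^ k - 4) * 16 := by
      unfold X
      obtain ⟨j, hj⟩ : ∃ j, 16 ^ k = j + 4 := ⟨16 ^ k - 4, by omega⟩
      rw [hj, Nat.add_sub_cancel, pow_add]; norm_num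
    have h6 : (0 : ℝ) < 2 ^ (16 ^ k - 4) := by positivity
    rw [h5]
    have h7 : (∑ m ∈ range (16 ^ k - 4), (2 : ℝ) ^ m) * (1 / (2 ^ (16 ^ k - 4) * 16)) ≤ 1 / 16 := by
      rw [mul_one_div, div_le_div_iff₀ (by positivity) (by norm_num)]
      linarith
    linarith

/-- exceptional masses -/
theorem exc_union (n : ℕ) : PP {σ | ∃ p ∈ VB n, ¬ (0 ≤ σ p ∧ σ p ≤ 2 ^ ((base p).length + 4))} ≤
    ENNReal.ofReal (1 / 8) := by
  have h1 : {σ : V → ℝ | ∃ p ∈ VB n, ¬ (0 ≤ σ p ∧ σ p ≤ 2 ^ ((base p).length + 4))} =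
      ⋃ p ∈ VB n, (fun σ : V → ℝ => σ p) ⁻¹' {s | ¬ (0 ≤ s ∧ s ≤ 2 ^ ((base p).length + 4))} := by
    ext σ; simp
  rw [h1]
  refine (measure_biUnion_finset_le _ _).trans ?_
  have h0 : ∀ (m k : ℕ), 0 ≤ (if m + 4 < 16 ^ k then 1 / X k else 0) := by
    intro m k
    have := X_pos k
    split_ifs
    · positivity
    · exact le_rfl
  have h0' : ∀ (m k : ℕ), |(if m + 4 < 16 ^ k then 1 / X k else 0)| ≤ 1 := by
    intro m k
    rw [abs_of_nonneg (h0 m k)]
    split_ifs
    · exact inv_X_le k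
    · norm_num
  have h2 : ∀ p ∈ VB n, PP ((fun σ : V → ℝ => σ p) ⁻¹'
      {s | ¬ (0 ≤ s ∧ s ≤ 2 ^ ((base p).length + 4))}) ≤
      ENNReal.ofReal (∑' k, Wt k * (if (base p).length + 4 < 16 ^ k then 1 / X k else 0)) := by
    intro p _
    have hms : MeasurableSet {s : ℝ | ¬ (0 ≤ s ∧ s ≤ 2 ^ ((base p).length + 4))} :=
      ((measurableSet_le measurable_const measurable_id).inter
        (measurableSet_le measurable_id measurable_const)).compl
    have hev : MeasurePreserving (fun σ : V → ℝ => σ p) PP law :=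
      measurePreserving_eval_infinitePi (fun _ : V => law) p
    rw [hev.measure_preimage hms.nullMeasurableSet]
    exact law_tail _
  refine (sum_le_sum h2).trans ?_
  rw [← ENNReal.ofReal_sum_of_nonneg (fun p _ => tsum_nonneg fun k =>
    mul_nonneg (Wt_pos k).le (h0 _ k))]
  refine ENNReal.ofReal_le_ofReal ?_
  rw [sum_VB n (fun w => ∑' k, Wt k * (if w.length + 4 < 16 ^ k then 1 / X k else 0))]
  have h3 : ∀ m, (kap m : ℝ) * ∑ w ∈ lev m, ∑' k, Wt k * (if w.length + 4 < 16 ^ k then 1 / X k else 0)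
      = ∑' k, Wt k * (kap m * (2 ^ m * (if m + 4 < 16 ^ k then 1 / X k else 0))) := by
    intro m
    have : ∀ w ∈ lev m, ∑' k, Wt k * (if w.length + 4 < 16 ^ k then 1 / X k else 0) =
        ∑' k, Wt k * (if m + 4 < 16 ^ k then 1 / X k else 0) := by
      intro w hw
      rw [(mem_lev _ _).1 hw]
    rw [sum_congr rfl this, sum_const, card_lev, nsmul_eq_mul, ← tsum_mul_left, ← tsum_mul_left]
    refine tsum_congr fun k => ?_
    push_cast
    ring
  simp_rw [h3]
  rw [← Summable.tsum_finsetSum]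
  · have h4 : ∀ k, ∑ m ∈ range (n + 1), Wt k * ((kap m : ℝ) * (2 ^ m * (if m + 4 < 16 ^ k then 1 / X k else 0)))
        ≤ Wt k * (1 / 8) := by
      intro k
      rw [← mul_sum]
      exact mul_le_mul_of_nonneg_left (two_pow_sum k n) (Wt_pos k).le
    have h5 : ∑' k, ∑ m ∈ range (n + 1), Wt k * ((kap m : ℝ) * (2 ^ m * (if m + 4 < 16 ^ k then 1 / X k else 0)))
        ≤ ∑' k, Wt k * (1 / 8) := by
      refine Summable.tsum_le_tsum h4 ?_ (summable_Wt.mul_right _)
      refine Summable.of_nonneg_of_le (fun k => sum_nonneg fun m _ => ?_) h4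
        (summable_Wt.mul_right _)
      have := h0 m k
      have := Wt_pos k
      positivity
    rw [tsum_mul_right, tsum_Wt] at h5
    linarith
  · intro m _
    have : ∀ k, Wt k * ((kap m : ℝ) * (2 ^ m * (if m + 4 < 16 ^ k then 1 / X k else 0))) =
      (kap m * 2 ^ m) * (Wt k * (if m + 4 < 16 ^ k then 1 / X k else 0)) := by intro k; ring
    simp_rw [this]
    exact (summable_Wt_mul (h0' m)).mul_left _

/-- the good event -/
def Good (n : ℕ) : Set (V → ℝ) := {σ | (∀ p ∈ VB n, 0 ≤ σ p) ∧ (∀ x ∈ TB n, 1 ≤ Yv n x σ) ∧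
  Yv n [] σ ≤ 808}

theorem good_prob (n : ℕ) : PP (Good n)ᶜ ≤ ENNReal.ofReal (3 / 8) := by
  have hsub : (Good n)ᶜ ⊆ {σ | ∃ p ∈ VB n, ¬ (0 ≤ σ p ∧ σ p ≤ 2 ^ ((base p).length + 4))} ∪
      ({σ | ∃ x ∈ TB n, Yt n x σ < 1} ∪ {σ | 808 < Yt n [] σ}) := by
    intro σ hσ
    by_contra hcon
    apply hσ
    have h1 : ∀ p ∈ VB n, 0 ≤ σ p ∧ σ p ≤ 2 ^ ((base p).length + 4) := fun p hp =>
      by_contra fun h => hcon (Or.inl ⟨p, hp, h⟩)
    have h2 : ∀ x ∈ TB n, 1 ≤ Yt n x σ := fun x hx =>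
      not_lt.1 fun h => hcon (Or.inr (Or.inl ⟨x, hx, h⟩))
    have h3 : Yt n [] σ ≤ 808 := not_lt.1 fun h => hcon (Or.inr (Or.inr h))
    have hY : ∀ x, Yv n x σ = Yt n x σ := by
      intro x
      unfold Yv Yt
      congr 1
      refine sum_congr rfl fun p hp => ?_
      unfold trn
      rw [if_pos (h1 p hp).2]
    refine ⟨fun p hp => (h1 p hp).1, fun x hx => ?_, ?_⟩
    · rw [hY]; exact h2 x hx
    · rw [hY]; exact h3
  refine (measure_mono hsub).trans ?_
  refine (measure_union_le _ _).trans ?_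
  have h4 := measure_union_le (μ := PP) {σ | ∃ x ∈ TB n, Yt n x σ < 1} {σ | 808 < Yt n [] σ}
  have h5 : ENNReal.ofReal (3 / 8) = ENNReal.ofReal (1 / 8) + (ENNReal.ofReal (1 / 8) +
      ENNReal.ofReal (1 / 8)) := by
    rw [← ENNReal.ofReal_add (by norm_num) (by norm_num),
      ← ENNReal.ofReal_add (by norm_num) (by norm_num)]
    norm_num
  rw [h5]
  exact add_le_add (exc_union n) (h4.trans (add_le_add (low_union n) (up_root n)))

end Pool.H543.Sand
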