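import Mathlib
import Pool.Agent.H543Sand.Prob

set_option autoImplicit false

/-!
Passage to infinite volume.
-/

namespace Pool.H543.Sand

open MeasureTheory Filter

/-- total centred mass at a tree vertex (including the leaf) -/
noncomputable def zet (σ : V → ℝ) (x : T) : ℝ :=
  (σ (Sum.inl x) - 1) + if h : sq x.length then σ (Sum.inr ⟨x, h⟩) - 1 else 0

lemma sum_ind (n : ℕ) (σ : V → ℝ) (x : T) (hx : x.length ≤ n) :
    ∑ p ∈ VB n, (if x = base p then (1 : ℝ) else 0) * (σ p - 1) = zet σ x := by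
  rw [VB, Finset.sum_disjSum]
  unfold zet
  congr 1
  · have : ∀ w ∈ TB n, (if x = base (Sum.inl w) then (1 : ℝ) else 0) * (σ (Sum.inl w) - 1) =
        if x = w then (σ (Sum.inl w) - 1) else 0 := by
      intro w _
      simp [base]
    rw [Finset.sum_congr rfl this, Finset.sum_ite_eq, if_pos ((mem_TB _ _).2 hx)]
  · split_ifs with h
    · rw [Finset.sum_eq_single ⟨x, h⟩]
      · simp [base]
      · intro w _ hw
        rw [if_neg, zero_mul]
        intro h'
        apply hw
        apply Subtype.ext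
        exact h'.symm
      · intro h'
        exfalso
        apply h'
        simp [mem_TB, hx]
    · refine Finset.sum_eq_zero fun w _ => ?_
      rw [if_neg, zero_mul]
      intro h'
      have h'' : x = w.1 := h'
      apply h
      rw [h'']; exact w.2

lemma Yv_root (n : ℕ) (σ : V → ℝ) :
    2 * Yv n [] σ - Yv n [true] σ - Yv n [false] σ = zet σ [] := by
  rw [← sum_ind n σ [] (by simp)]
  unfold Yv
  have : ∀ p ∈ VB n, (if [] = base p then (1 : ℝ) else 0) * (σ p - 1) =
      2 * (Gr [] (base p) * (σ p - 1)) - Gr [true] (base p) * (σ p - 1) -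
        Gr [false] (base p) * (σ p - 1) := by
    intro p _
    rw [← lap_root]; ring
  rw [Finset.sum_congr rfl this, Finset.sum_sub_distrib, Finset.sum_sub_distrib, ← Finset.mul_sum]
  ring

lemma Yv_step (n : ℕ) (σ : V → ℝ) (a : Bool) (w : T) (hw : (a :: w).length ≤ n) :
    3 * Yv n (a :: w) σ - Yv n w σ - Yv n (true :: a :: w) σ - Yv n (false :: a :: w) σ =
      zet σ (a :: w) := by
  rw [← sum_ind n σ (a :: w) hw]
  unfold Yv
  have : ∀ p ∈ VB n, (if a :: w = base p then (1 : ℝ) else 0) * (σ p - 1) =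
      3 * (Gr (a :: w) (base p) * (σ p - 1)) - Gr w (base p) * (σ p - 1) -
        Gr (true :: a :: w) (base p) * (σ p - 1) - Gr (false :: a :: w) (base p) * (σ p - 1) := by
    intro p _
    rw [← lap_step]; ring
  rw [Finset.sum_congr rfl this, Finset.sum_sub_distrib, Finset.sum_sub_distrib,
    Finset.sum_sub_distrib, ← Finset.mul_sum]
  ring

/-- upper bounds -/
noncomputable def Bd : ℕ → ℝ
  | 0 => 808
  | m + 1 => 3 * Bd m + 2

lemma zet_ge (n : ℕ) (σ : V → ℝ) (h : ∀ p ∈ VB n, 0 ≤ σ p) (x : T) (hx : x.length ≤ n) :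
    -2 ≤ zet σ x := by
  unfold zet
  have h1 := h (Sum.inl x) ((mem_VB _ _).2 hx)
  split_ifs with hs
  · have h2 := h (Sum.inr ⟨x, hs⟩) ((mem_VB _ _).2 hx)
    linarith
  · linarith

lemma upper (n : ℕ) (σ : V → ℝ) (hσ : σ ∈ Good n) (x : T) (hx : x.length ≤ n) :
    Yv n x σ ≤ Bd x.length := by
  obtain ⟨h0, h1, h2⟩ := hσ
  have hpos : ∀ y : T, y.length ≤ n → 0 ≤ Yv n y σ := fun y hy =>
    zero_le_one.trans (h1 y ((mem_TB _ _).2 hy))
  induction x with
  | nil => exact h2
  | cons a w ih =>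
    simp only [List.length_cons] at hx
    have h3 := ih (by omega)
    have h4 := zet_ge n σ h0 w (by omega)
    have hc : ∀ b : Bool, 0 ≤ Yv n (b :: w) σ := fun b => hpos _ (by simpa using hx)
    have key : Yv n (a :: w) σ ≤ 3 * Yv n w σ + 2 := by
      cases w with
      | nil =>
        have h5 := Yv_root n σ
        have h6 := hpos [] (by simp)
        have h7 := hc true
        have h8 := hc false
        cases a <;> linarith
      | cons b w =>
        have h5 := Yv_step n σ b w (by omega)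
        have h6 := hpos w (by simp only [List.length_cons] at hx; omega)
        have h7 := hc true
        have h8 := hc false
        cases a <;> linarith
    rw [List.length_cons, Bd]
    linarith

/-- infinite volume solution -/
theorem exists_v (σ : V → ℝ) (hσ : ∃ᶠ n in atTop, σ ∈ Good n) :
    (∀ p, 0 ≤ σ p) ∧ ∃ v : T → ℝ, (∀ x, 1 ≤ v x) ∧
      (2 * v [] - v [true] - v [false] = zet σ []) ∧
      ∀ a w, 3 * v (a :: w) - v w - v (true :: a :: w) - v (false :: a :: w) = zet σ (a :: w) := by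
  have hne : (atTop ⊓ 𝓟 {n | σ ∈ Good n}).NeBot := by
    rw [← frequently_mem_iff_neBot]
    exact hσ
  set U := @Ultrafilter.of ℕ (atTop ⊓ 𝓟 {n | σ ∈ Good n}) hne with hU
  have hUle : (U : Filter ℕ) ≤ atTop ⊓ 𝓟 {n | σ ∈ Good n} := Ultrafilter.of_le _
  have hev : ∀ N : ℕ, ∀ᶠ n in (U : Filter ℕ), N ≤ n ∧ σ ∈ Good n := by
    intro N
    apply hUle
    exact inter_mem_inf (eventually_ge_atTop N) (mem_principal_self _)
  constructor
  · intro p
    obtain ⟨n, hn1, hn2⟩ := (hev (base p).length).exists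
    exact hn2.1 p ((mem_VB _ _).2 hn1)
  have hlim : ∀ x : T, ∃ v ∈ Set.Icc (1 : ℝ) (Bd x.length),
      Tendsto (fun n => Yv n x σ) (U : Filter ℕ) (nhds v) := by
    intro x
    have h1 : ∀ᶠ n in (U : Filter ℕ), Yv n x σ ∈ Set.Icc (1 : ℝ) (Bd x.length) := by
      filter_upwards [hev x.length] with n hn
      exact ⟨hn.2.2.1 x ((mem_TB _ _).2 hn.1), upper n σ hn.2 x hn.1⟩
    have h2 : ((U.map (fun n => Yv n x σ) : Ultrafilter ℝ) : Filter ℝ) ≤
        𝓟 (Set.Icc (1 : ℝ) (Bd x.length)) := by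
      rw [le_principal_iff]
      exact h1
    obtain ⟨v, hv1, hv2⟩ := isCompact_Icc.ultrafilter_le_nhds _ h2
    exact ⟨v, hv1, hv2⟩
  choose v hv1 hv2 using hlim
  refine ⟨v, fun x => (hv1 x).1, ?_, ?_⟩
  · have h1 : Tendsto (fun n => 2 * Yv n [] σ - Yv n [true] σ - Yv n [false] σ) (U : Filter ℕ)
        (nhds (2 * v [] - v [true] - v [false])) :=
      (((hv2 []).const_mul 2).sub (hv2 [true])).sub (hv2 [false])
    have h2 : (fun n => 2 * Yv n [] σ - Yv n [true] σ - Yv n [false] σ) = fun _ => zet σ [] := by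
      funext n; exact Yv_root n σ
    rw [h2] at h1
    exact tendsto_nhds_unique h1 tendsto_const_nhds
  · intro a w
    have h1 : Tendsto (fun n => 3 * Yv n (a :: w) σ - Yv n w σ - Yv n (true :: a :: w) σ -
        Yv n (false :: a :: w) σ) (U : Filter ℕ)
        (nhds (3 * v (a :: w) - v w - v (true :: a :: w) - v (false :: a :: w))) :=
      ((((hv2 (a :: w)).const_mul 3).sub (hv2 w)).sub (hv2 (true :: a :: w))).sub
        (hv2 (false :: a :: w))
    have h2 : Tendsto (fun n => 3 * Yv n (a :: w) σ - Yv n w σ - Yv n (true :: a :: w) σ -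
        Yv n (false :: a :: w) σ) (U : Filter ℕ) (nhds (zet σ (a :: w))) := by
      refine Tendsto.congr' ?_ tendsto_const_nhds
      filter_upwards [hev (a :: w).length] with n hn
      exact (Yv_step n σ a w hn.1).symm
    exact tendsto_nhds_unique h1 h2

/-- bad configurations do not have full measure -/
theorem not_null (S : Set (V → ℝ)) (hS : PP S = 0) : ∃ σ ∉ S, ∃ᶠ n in atTop, σ ∈ Good n := by
  by_contra hcon
  push Not at hcon
  set D : ℕ → Set (V → ℝ) := fun N => {σ | ∀ n ≥ N, σ ∉ Good n} with hD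
  have hmono : Monotone D := by
    intro a b hab σ hσ n hn
    exact hσ n (le_trans hab hn)
  have hU : Sᶜ ⊆ ⋃ N, D N := by
    intro σ hσ
    have h1 := hcon σ hσ
    rw [eventually_atTop] at h1
    obtain ⟨N, hN⟩ := h1
    exact Set.mem_iUnion.2 ⟨N, hN⟩
  have h1 : PP Sᶜ = 1 := by
    have h2 : (1 : ENNReal) ≤ PP S + PP Sᶜ := by
      rw [← measure_univ (μ := PP), ← Set.union_compl_self S]
      exact measure_union_le _ _
    rw [hS, zero_add] at h2
    exact le_antisymm prob_le_one h2
  have h3 : PP (⋃ N, D N) ≤ ENNReal.ofReal (3 / 8) := by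
    rw [hmono.measure_iUnion]
    refine iSup_le fun N => ?_
    refine (measure_mono ?_).trans (good_prob N)
    intro σ hσ
    exact hσ N le_rfl
  have h4 : (1 : ENNReal) ≤ ENNReal.ofReal (3 / 8) := by
    rw [← h1]
    exact (measure_mono hU).trans h3
  have h5 : ENNReal.ofReal (3 / 8) < 1 := by
    rw [ENNReal.ofReal_lt_one]; norm_num
  exact absurd h4 (not_le.2 h5)

end Pool.H543.Sand
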