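import Mathlib
import Pool.Agent.H543Sand.Lim

set_option autoImplicit false

/-!
The graph and the stabilising odometer.
-/

namespace Pool.H543.Sand

open MeasureTheory Filter

/-- adjacency -/
def adj : V → V → Prop
  | Sum.inl w, Sum.inl w' => (∃ a, w' = a :: w) ∨ (∃ a, w = a :: w')
  | Sum.inl w, Sum.inr l => l.1 = w
  | Sum.inr l, Sum.inl w => l.1 = w
  | Sum.inr _, Sum.inr _ => False

/-- the graph -/
def Gph : SimpleGraph V where
  Adj := adj
  symm := ⟨by
    rintro (w | l) (w' | l') h
    · exact h.symm
    · exact h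
    · exact h
    · exact h⟩
  loopless := ⟨by
    rintro (w | l) h
    · rcases h with ⟨a, h⟩ | ⟨a, h⟩
      · have := congrArg List.length h; simp at this
      · have := congrArg List.length h; simp at this
    · exact h⟩

/-- the leaf at `w`, if any -/
def lfs (w : T) : Finset V := if h : sq w.length then {Sum.inr ⟨w, h⟩} else ∅

/-- tree neighbours -/
def tnb : T → Finset V
  | [] => {Sum.inl [true], Sum.inl [false]}
  | a :: w => {Sum.inl w, Sum.inl (true :: a :: w), Sum.inl (false :: a :: w)}

/-- neighbours -/
def nb : V → Finset V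
  | Sum.inl w => tnb w ∪ lfs w
  | Sum.inr l => {Sum.inl l.1}

lemma mem_lfs (w : T) (y : V) : y ∈ lfs w ↔ ∃ h : sq w.length, y = Sum.inr ⟨w, h⟩ := by
  unfold lfs
  split_ifs with h
  · simp [h]
  · simp [h]

lemma mem_nb (x y : V) : y ∈ nb x ↔ Gph.Adj x y := by
  show y ∈ nb x ↔ adj x y
  rcases x with w | l
  · rw [nb, Finset.mem_union, mem_lfs]
    rcases y with w' | l'
    · simp only [reduceCtorEq, exists_false, or_false, adj]
      cases w with
      | nil =>
        simp only [tnb, Finset.mem_insert, Finset.mem_singleton, Sum.inl.injEq]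
        constructor
        · rintro (h | h)
          · exact Or.inl ⟨true, h⟩
          · exact Or.inl ⟨false, h⟩
        · rintro (⟨a, h⟩ | ⟨a, h⟩)
          · cases a
            · exact Or.inr h
            · exact Or.inl h
          · simp at h
      | cons b w =>
        simp only [tnb, Finset.mem_insert, Finset.mem_singleton, Sum.inl.injEq]
        constructor
        · rintro (h | h | h)
          · exact Or.inr ⟨b, by rw [h]⟩
          · exact Or.inl ⟨true, h⟩
          · exact Or.inl ⟨false, h⟩
        · rintro (⟨a, h⟩ | ⟨a, h⟩)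
          · cases a
            · exact Or.inr (Or.inr h)
            · exact Or.inr (Or.inl h)
          · simp only [List.cons.injEq] at h
            exact Or.inl h.2.symm
    · simp only [adj, Sum.inr.injEq]
      constructor
      · rintro (h | ⟨h1, h2⟩)
        · cases w <;> simp [tnb] at h
        · rw [h2]
      · intro h
        right
        refine ⟨?_, ?_⟩
        · rw [← h]; exact l'.2
        · exact Subtype.ext h
  · rcases y with w' | l'
    · simp only [nb, Finset.mem_singleton, Sum.inl.injEq, adj]
      exact eq_comm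
    · simp [nb, adj]

instance : Gph.LocallyFinite := fun x =>
  Fintype.ofFinset (nb x) (by intro y; rw [mem_nb]; rfl)

lemma neighborFinset_eq (x : V) : Gph.neighborFinset x = nb x := by
  ext y
  rw [SimpleGraph.mem_neighborFinset, mem_nb]

lemma degree_eq (x : V) : Gph.degree x = (nb x).card := by
  rw [← SimpleGraph.card_neighborFinset_eq_degree, neighborFinset_eq]

lemma degree_le (x : V) : Gph.degree x ≤ 4 := by
  rw [degree_eq]
  rcases x with w | l
  · rw [nb]
    refine (Finset.card_union_le _ _).trans ?_
    have h1 : (tnb w).card ≤ 3 := by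
      cases w with
      | nil => exact Finset.card_le_two.trans (by norm_num)
      | cons a w => exact Finset.card_le_three
    have h2 : (lfs w).card ≤ 1 := by
      unfold lfs
      split_ifs <;> simp
    omega
  · simp [nb]

lemma degree_pos (x : V) : 0 < Gph.degree x := by
  rw [degree_eq, Finset.card_pos]
  rcases x with w | l
  · cases w with
    | nil => exact ⟨Sum.inl [true], by simp [nb, tnb]⟩
    | cons a w => exact ⟨Sum.inl w, by simp [nb, tnb]⟩
  · exact ⟨Sum.inl l.1, by simp [nb]⟩

lemma reach_tree (w : T) : Gph.Reachable (Sum.inl []) (Sum.inl w) := by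
  induction w with
  | nil => exact SimpleGraph.Reachable.refl _
  | cons a w ih =>
    refine ih.trans (SimpleGraph.Adj.reachable ?_)
    exact Or.inl ⟨a, rfl⟩

lemma reach (x : V) : Gph.Reachable (Sum.inl []) x := by
  rcases x with w | l
  · exact reach_tree w
  · refine (reach_tree l.1).trans (SimpleGraph.Adj.reachable ?_)
    exact (rfl : l.1 = l.1)

lemma connected : Gph.Connected := by
  haveI : Nonempty V := ⟨Sum.inl []⟩
  exact SimpleGraph.Connected.mk (fun x y => (reach x).symm.trans (reach y))

/-- stabilisation -/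
theorem stab (σ : V → ℝ) (hσ : ∀ p, 0 ≤ σ p) (v : T → ℝ) (hv : ∀ x, 1 ≤ v x)
    (h0 : 2 * v [] - v [true] - v [false] = zet σ [])
    (h1 : ∀ a w, 3 * v (a :: w) - v w - v (true :: a :: w) - v (false :: a :: w) = zet σ (a :: w)) :
    ∃ u : V → ℝ, (∀ x, 0 ≤ u x) ∧
      ∀ x, σ x + (∑ y ∈ Gph.neighborFinset x, u y / (Gph.degree y : ℝ)) - u x ≤ 1 := by
  set v' : V → ℝ := fun p => v (base p) + (Sum.elim (fun _ => 0) (fun l => σ (Sum.inr l) - 1) p)
    with hv'
  have hvl : ∀ w, v' (Sum.inl w) = v w := by intro w; simp [hv', base]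
  have hvr : ∀ l, v' (Sum.inr l) = v l.1 + (σ (Sum.inr l) - 1) := by intro l; simp [hv', base]
  have hpos : ∀ x, 0 ≤ v' x := by
    rintro (w | l)
    · rw [hvl]; linarith [hv w]
    · rw [hvr]; linarith [hv l.1, hσ (Sum.inr l)]
  refine ⟨fun x => (Gph.degree x : ℝ) * v' x, fun x => mul_nonneg (Nat.cast_nonneg _) (hpos x), ?_⟩
  intro x
  have hdiv : ∀ y, (Gph.degree y : ℝ) * v' y / (Gph.degree y : ℝ) = v' y := by
    intro y
    have : (0 : ℝ) < Gph.degree y := by exact_mod_cast degree_pos y
    field_simp
  simp only [hdiv]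
  have hsum : (∑ y ∈ Gph.neighborFinset x, v' y) - (Gph.degree x : ℝ) * v' x =
      ∑ y ∈ nb x, (v' y - v' x) := by
    rw [Finset.sum_sub_distrib, Finset.sum_const, nsmul_eq_mul, neighborFinset_eq, degree_eq]
  have hgoal : σ x + ∑ y ∈ nb x, (v' y - v' x) ≤ 1 → σ x + (∑ y ∈ Gph.neighborFinset x, v' y) -
      (Gph.degree x : ℝ) * v' x ≤ 1 := by
    intro h
    linarith
  apply hgoal
  have hleaf : ∀ w, ∑ y ∈ lfs w, (v' y - v w) =
      if h : sq w.length then σ (Sum.inr ⟨w, h⟩) - 1 else 0 := by
    intro w
    unfold lfs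
    split_ifs with h
    · rw [Finset.sum_singleton, hvr]; ring
    · simp
  have hdisj : ∀ w, Disjoint (tnb w) (lfs w) := by
    intro w
    rw [Finset.disjoint_left]
    intro y h1 h2
    rw [mem_lfs] at h2
    obtain ⟨_, rfl⟩ := h2
    cases w <;> simp [tnb] at h1
  rcases x with w | l
  · rw [nb, Finset.sum_union (hdisj w), hvl, hleaf]
    cases w with
    | nil =>
      have e : ∑ y ∈ tnb [], (v' y - v []) = (v [true] - v []) + (v [false] - v []) := by
        rw [tnb, Finset.sum_pair (by simp), hvl, hvl]
      rw [e]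
      unfold zet at h0
      linarith
    | cons a w =>
      have n1 : (Sum.inl w : V) ∉ ({Sum.inl (true :: a :: w), Sum.inl (false :: a :: w)} : Finset V) := by
        simp only [Finset.mem_insert, Finset.mem_singleton, Sum.inl.injEq, not_or]
        constructor
        · intro h; have := congrArg List.length h; simp at this; omega
        · intro h; have := congrArg List.length h; simp at this; omega
      have e : ∑ y ∈ tnb (a :: w), (v' y - v (a :: w)) = (v w - v (a :: w)) +
          ((v (true :: a :: w) - v (a :: w)) + (v (false :: a :: w) - v (a :: w))) := by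
        rw [tnb, Finset.sum_insert n1, Finset.sum_pair (by simp), hvl, hvl, hvl]
      rw [e]
      have h2 := h1 a w
      unfold zet at h2
      linarith
  · rw [nb, Finset.sum_singleton, hvl, hvr]
    linarith

/-- Main theorem: on this bounded degree graph critical i.i.d. masses with infinite variance do not
explode almost surely. -/
theorem main : ¬ ∀ᵐ σ ∂(Measure.infinitePi (fun _ : V => law)),
    ¬ ∃ u : V → ℝ, (∀ x, 0 ≤ u x) ∧
      ∀ x, σ x + (∑ y ∈ Gph.neighborFinset x, u y / (Gph.degree y : ℝ)) - u x ≤ 1 := by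
  intro hcon
  obtain ⟨σ, h1, h2⟩ := not_null _ hcon
  obtain ⟨h3, v, h4, h5, h6⟩ := exists_v σ h2
  apply h1
  intro h
  exact h (stab σ h3 v h4 h5 h6)

end Pool.H543.Sand
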